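import Pool.Agent.R211.BQ.Phys

/-!
Every mean-free square integrable temperature is the temperature at time zero of a bounded
solution on the whole line.
-/

set_option autoImplicit false

open Set Filter Topology MeasureTheory
open scoped ComplexConjugate ENNReal

namespace Pool.Agent.R211.BQ

lemma fc_zero {f : T2 → ℝ} : fc f 0 = ((∫ y, f y ∂mu : ℝ) : ℂ) := by
  unfold fc
  rw [← integral_complex_ofReal]
  refine integral_congr_ae (Filter.Eventually.of_forall fun y => ?_)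
  have : ex 0 y = 1 := by
    unfold ex
    simp
  simp [this]

lemma mem_L20 {f : T2 → ℝ} (hf : MemLp f 2 mu) (h : fc f 0 = 0) : f ∈ L20 := by
  rw [fc_zero] at h
  exact ⟨hf, by exact_mod_cast h⟩

theorem exists_traj {L ν g : ℝ} (hL : 0 < L) (hν : 0 < ν) {θ0 : T2 → ℝ} (h0 : θ0 ∈ L20) :
    ∃ (u : ℝ → Fin 2 → T2 → ℝ) (θ : ℝ → T2 → ℝ), IsSol L ν g univ u θ ∧
      (∃ M : ℝ, ∀ t, Bdd M (u t) (θ t)) ∧ θ 0 = θ0 := by
  set κ : ℝ := 2 * Real.pi / L with hκd
  have hκ : 0 < κ := by positivity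
  obtain ⟨W, Θ, hCT, hΘ0⟩ := exists_complete (ν := ν * κ ^ 2) (g := g * κ) (by positivity)
    (y := fc θ0) (fun k => (fc_neg θ0 k).symm) (by
      rw [fc_zero, h0.2, Complex.ofReal_zero]) (LB_fc' h0.1)
  set N : ℝ := ∫ y, θ0 y ^ 2 ∂mu with hN
  set C : ℝ := (g * κ) ^ 2 * N / (ν * κ ^ 2) ^ 2 with hC
  have hexu : ∀ t i, ∃ f : T2 → ℝ, MemLp f 2 mu ∧ ∀ k, fc f k = uc κ (W t) i k := fun t i =>
    exists_real' (fun k => uc_conj (hCT.cjW t) i k) (uc_LB hκ (hCT.zW t) (hCT.bW t) i)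
  have hexθ : ∀ t, ∃ f : T2 → ℝ, MemLp f 2 mu ∧ (∀ k, fc f k = Θ t k) ∧ (t = 0 → f = θ0) := by
    intro t
    by_cases ht : t = 0
    · refine ⟨θ0, h0.1, fun k => ?_, fun _ => rfl⟩
      rw [ht, hΘ0]
    · obtain ⟨f, h1, h2⟩ := exists_real' (hCT.cjΘ t) (hCT.bΘ t)
      exact ⟨f, h1, h2, fun h => absurd h ht⟩
  choose u hum hu using hexu
  choose θ hθm hθ hθ0 using hexθ
  have hLBu : ∀ t i, LB (C / κ ^ 2) (fc (u t i)) := by
    intro t i
    have : fc (u t i) = uc κ (W t) i := funext (hu t i)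
    rw [this]
    exact uc_LB hκ (hCT.zW t) (hCT.bW t) i
  have hLBθ : ∀ t, LB N (fc (θ t)) := by
    intro t
    have : fc (θ t) = Θ t := funext (hθ t)
    rw [this]
    exact hCT.bΘ t
  have hWc : ∀ k, Continuous fun t => W t k := fun k =>
    continuous_iff_continuousAt.2 fun t => (hCT.derW t k).continuousAt
  have hΘc : ∀ k, Continuous fun t => Θ t k := fun k =>
    continuous_iff_continuousAt.2 fun t => (hCT.derΘ t k).continuousAt
  refine ⟨u, θ, ⟨fun t _ => ⟨fun i => ?_, fun k => ?_⟩, fun t _ => ?_, fun i φ hφ => ?_,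
    fun φ hφ => ?_, fun a _ b _ => ?_, fun k c hc a _ b _ _ => ?_, fun k a _ b _ _ => ?_⟩,
    ⟨max (C / κ ^ 2) N, fun t => ⟨fun i => ?_, ?_⟩⟩, ?_⟩
  · refine mem_L20 (hum t i) ?_
    rw [hu]
    unfold uc
    rw [hCT.zW, mul_zero]
  · simp only [hu]
    exact uc_div κ (W t) k
  · refine mem_L20 (hθm t) ?_
    rw [hθ, hCT.zΘ]
  · refine (weak_cont' (fun t => hum t i) (fun k => ?_) (fun t => hLBu t i) hφ).continuousOn
    simp only [hu]
    unfold uc
    exact continuous_const.mul (hWc k)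
  · refine (weak_cont' hθm (fun k => ?_) hLBθ hφ).continuousOn
    simp only [hθ]
    exact hΘc k
  · have h1 : ∀ t, grad2 L (u t) ≤ ENNReal.ofReal C := by
      intro t
      unfold grad2 kap
      have h2 : ∀ k : ℤ × ℤ, (2 * Real.pi / L) ^ 2 * sq k * ∑ i, ‖fc (u t i) k‖ ^ 2
          = ‖W t k‖ ^ 2 := by
        intro k
        rw [sq_eq]
        simp only [hu]
        exact uc_sq hκ (hCT.zW t) k
      simp only [h2]
      rw [← ENNReal.ofReal_tsum_of_nonneg (fun _ => sq_nonneg _) (hCT.bW t).summable]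
      refine ENNReal.ofReal_le_ofReal ?_
      exact (hCT.bW t).summable.tsum_le_of_sum_le (hCT.bW t)
    calc ∫⁻ t in Icc a b, grad2 L (u t) ≤ ∫⁻ _ in Icc a b, ENNReal.ofReal C :=
          lintegral_mono fun t => h1 t
      _ = ENNReal.ofReal C * volume (Icc a b) := setLIntegral_const _ _
      _ < ⊤ := by
        rw [Real.volume_Icc]
        exact ENNReal.mul_lt_top ENNReal.ofReal_lt_top ENNReal.ofReal_lt_top
  · set A : ℂ := Complex.I * ((c 0 * k.2 - c 1 * k.1) / ((κ * n2 k : ℝ) : ℂ)) with hA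
    have h1 : ∀ t, mom L ν g (u t) (θ t) k c
        = A * rI (ν * κ ^ 2) (g * κ) (W t) (Θ t) k := fun t =>
      mom_eq hL (hCT.bW t) (hCT.bΘ t) (hCT.zW t) (hCT.zΘ t) (hum t) (hu t) (hθ t) k hc
    have h2 : ∀ t, pa (u t) k c = A * W t k := by
      intro t
      unfold pa
      simp only [hu]
      rw [sum_c_uc]
    simp only [h1, h2]
    refine ftc (M := ‖A‖ * cW (ν * κ ^ 2) (g * κ) C N k)
      (f := fun t => A * W t k) (fun t => (hCT.derW t k).const_mul A) (fun t => ?_) a b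
    rw [norm_mul]
    refine mul_le_mul_of_nonneg_left ?_ (norm_nonneg _)
    exact rI_le (hCT.bW t) (hCT.bΘ t) k
  · have h1 : ∀ t, tra L (u t) (θ t) k = -(nlI (W t) (Θ t) k) := fun t =>
      tra_eq hL (hCT.bW t) (hCT.bΘ t) (hum t) (hθm t) (hu t) (hθ t) k
    simp only [h1, hθ]
    refine ftc (M := ln k * (Real.sqrt C * Real.sqrt N))
      (f := fun t => Θ t k) (fun t => hCT.derΘ t k) (fun t => ?_) a b
    rw [norm_neg]
    exact nlI_le (hCT.bW t) (hCT.bΘ t) k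
  · exact (norm_le_of_LB' (hum t i) (hLBu t i)).trans (le_max_left _ _)
  · exact (norm_le_of_LB' (hθm t) (hLBθ t)).trans (le_max_right _ _)
  · exact hθ0 0 rfl

/-- Every mean-free square integrable temperature is attained on the attractor. -/
theorem att_full {L ν g : ℝ} (hL : 0 < L) (hν : 0 < ν) {θ0 : T2 → ℝ} (h0 : θ0 ∈ L20) :
    ∃ u0 ∈ Hs, (u0, θ0) ∈ Att L ν g := by
  obtain ⟨u, θ, h1, h2, h3⟩ := exists_traj (g := g) hL hν h0
  exact ⟨u 0, h1.memH 0 (mem_univ _), u, θ, h1, h2, rfl, h3⟩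

end Pool.Agent.R211.BQ
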