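import Pool.Agent.R211.BQ.En
import Pool.Agent.Helper133.Brouwer

/-!
Solutions of the Galerkin systems with prescribed temperature at a later time.
-/

set_option autoImplicit false

open Set Filter Topology MeasureTheory
open scoped ComplexConjugate ENNReal NNReal ContDiff

namespace Pool.Agent.R211.BQ

/-- The coefficients of real functions. -/
def Er {B : Finset K2} (hB : ∀ k ∈ B, -k ∈ B) : Submodule ℝ (XB B) where
  carrier := {x | fl hB x = x}
  add_mem' := by
    intro a b ha hb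
    change fl hB _ = _ at ha hb ⊢
    funext k
    have h1 := congrFun ha k
    have h2 := congrFun hb k
    unfold fl at h1 h2 ⊢
    rw [Pi.add_apply, Pi.add_apply, map_add, h1, h2]
  zero_mem' := by
    change fl hB _ = _
    funext k
    unfold fl
    simp
  smul_mem' := by
    intro c a ha
    change fl hB _ = _ at ha ⊢
    funext k
    have h1 := congrFun ha k
    unfold fl at h1 ⊢
    rw [Pi.smul_apply, Pi.smul_apply, Complex.real_smul, map_mul, Complex.conj_ofReal, h1,
      Complex.real_smul]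

/-- A solution of the Galerkin system on `[0, T]`. -/
structure GSol (B : Finset K2) (ν g T : ℝ) (W Θ : ℝ → K2 → ℂ) : Prop where
  spW : ∀ t, ∀ k ∉ B, W t k = 0
  spΘ : ∀ t, ∀ k ∉ B, Θ t k = 0
  cjW : ∀ t ∈ Icc 0 T, ∀ k, conj (W t k) = W t (-k)
  cjΘ : ∀ t ∈ Icc 0 T, ∀ k, conj (Θ t k) = Θ t (-k)
  derW : ∀ t ∈ Icc 0 T, ∀ k ∈ B, HasDerivWithinAt (fun s => W s k)
    (-(nlB B (W t) (W t) k) - ((ν * n2 k : ℝ) : ℂ) * W t k
      + Complex.I * ((g * k.1 : ℝ) : ℂ) * Θ t k) (Icc 0 T) t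
  derΘ : ∀ t ∈ Icc 0 T, ∀ k ∈ B, HasDerivWithinAt (fun s => Θ s k)
    (-(nlB B (W t) (Θ t) k)) (Icc 0 T) t

theorem exists_final {B : Finset K2} (hB : ∀ k ∈ B, -k ∈ B) (h0 : (0 : K2) ∉ B) {ν g T T2 : ℝ}
    (hν : 0 < ν) (hT : 0 ≤ T) (hT2 : T ≤ T2) {y : K2 → ℂ} (hy : ∀ k, conj (y k) = y (-k)) :
    ∃ W Θ : ℝ → K2 → ℂ, GSol B ν g T2 W Θ ∧ (∀ k ∈ B, Θ T k = y k) ∧
      (∀ t ∈ Icc 0 T2, ∑ k ∈ B, ‖Θ t k‖ ^ 2 = ∑ k ∈ B, ‖y k‖ ^ 2) ∧
      ∀ t ∈ Icc 0 T2, ∑ k ∈ B, ‖W t k‖ ^ 2 ≤ g ^ 2 * (∑ k ∈ B, ‖y k‖ ^ 2) / ν ^ 2 := by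
  classical
  set y0 : XB B := fun k => y k with hy0
  have hy0r : fl hB y0 = y0 := by
    funext k
    show conj (y (-k.1)) = y k
    rw [hy, neg_neg]
  set r : ℝ := en B y0 with hr
  have hr0 : 0 ≤ r := en_nonneg _
  set R : ℝ := g ^ 2 * r / ν ^ 2 + r + 1 with hR
  have hR0 : 0 < R := by positivity
  have hT20 : 0 ≤ T2 := hT.trans hT2
  obtain ⟨K, hK⟩ := FF_lipschitz (B := B) ν g hR0
  obtain ⟨C, hC⟩ := (FF_support (B := B) ν g hR0).exists_bound_of_continuous
    (FF_contDiff ν g R).continuous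
  have hC0 : 0 ≤ C := (norm_nonneg _).trans (hC 0)
  choose α hα0 hα using fun x : XB B => exists_sol (B := B) ν g hR0 hT20 (0, x)
  have hreal : ∀ x : XB B, fl hB x = x → ∀ t ∈ Icc 0 T2,
      (fl hB (α x t).1, fl hB (α x t).2) = α x t := by
    intro x hx
    refine sol_real hB hR0 ?_ (hα x)
    rw [hα0]
    refine Prod.ext ?_ hx
    funext k
    unfold fl
    simp
  have hcj : ∀ (z : XB B), fl hB z = z → ∀ l, conj (ext B z l) = ext B z (-l) := by
    intro z hz l
    have h1 := ext_fl hB z (-l)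
    rw [hz, neg_neg] at h1
    exact h1.symm
  have hreal1 : ∀ x : XB B, fl hB x = x → ∀ t ∈ Icc 0 T2, ∀ l,
      conj (ext B (α x t).1 l) = ext B (α x t).1 (-l) := by
    intro x hx t ht
    exact hcj _ (congrArg Prod.fst (hreal x hx t ht))
  have hreal2 : ∀ x : XB B, fl hB x = x → ∀ t ∈ Icc 0 T2, ∀ l,
      conj (ext B (α x t).2 l) = ext B (α x t).2 (-l) := by
    intro x hx t ht
    exact hcj _ (congrArg Prod.snd (hreal x hx t ht))
  have hcons : ∀ x : XB B, fl hB x = x → ∀ t ∈ Icc 0 T2, en B (α x t).2 = en B x := by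
    intro x hx t ht
    rw [temp_const (hreal1 x hx) (hα x) t ht, hα0]
  have henst : ∀ x : XB B, fl hB x = x → ∀ t ∈ Icc 0 T2,
      en B (α x t).1 ≤ g ^ 2 * en B x / ν ^ 2 := by
    intro x hx t ht
    have h1 := enst_le hν h0 (hreal1 x hx) (hα x) (by
      rw [hα0]
      have : en B (0 : XB B) = 0 := by
        unfold en
        simp
      show en B (0 : XB B) ≤ _
      rw [this]
      have := en_nonneg x
      show 0 ≤ g ^ 2 * en B x / ν ^ 2
      positivity) t ht
    rwa [hα0] at h1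
  -- the map
  set τ : XB B → ℝ := fun x => T * max 0 (min 1 (r + 1 - en B x)) with hτ
  have hτc : Continuous τ := by
    have := (en_contDiff (B := B)).continuous
    simp only [hτ]
    fun_prop
  have hτm : ∀ x, τ x ∈ Icc 0 T2 := by
    intro x
    have h1 : 0 ≤ max 0 (min 1 (r + 1 - en B x)) := le_max_left _ _
    have h2 : max 0 (min 1 (r + 1 - en B x)) ≤ 1 := max_le zero_le_one (min_le_left _ _)
    refine ⟨mul_nonneg hT h1, ?_⟩
    calc T * max 0 (min 1 (r + 1 - en B x)) ≤ T * 1 := mul_le_mul_of_nonneg_left h2 hT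
      _ ≤ T2 := by linarith
  have hlipt : ∀ x : XB B, ∀ s ∈ Icc 0 T2, ∀ t ∈ Icc 0 T2,
      dist (α x s) (α x t) ≤ C * |s - t| := by
    intro x s hs t ht
    have h1 := (convex_Icc 0 T2).norm_image_sub_le_of_norm_hasDerivWithin_le
      (f := α x) (f' := fun t => FF B ν g R (α x t)) (C := C) (hα x) (fun t _ => hC _) ht hs
    rw [dist_eq_norm]
    simpa [Real.norm_eq_abs] using h1
  set H : ↥(Er hB) → ↥(Er hB) := fun x =>
    ⟨(α x.1 (τ x.1)).2, congrArg Prod.snd (hreal x.1 x.2 _ (hτm x.1))⟩ with hH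
  have hHc : Continuous H := by
    rw [continuous_iff_continuousAt]
    intro x
    rw [ContinuousAt, tendsto_iff_dist_tendsto_zero]
    have h1 : ∀ z : ↥(Er hB), dist (H z) (H x)
        ≤ dist z x * Real.exp (K * T2) + C * |τ z.1 - τ x.1| := by
      intro z
      have h2 : dist (H z) (H x) ≤ dist (α z.1 (τ z.1)) (α x.1 (τ x.1)) := by
        rw [Prod.dist_eq]
        exact le_max_right _ _
      have h3 := sol_dist hK (hα z.1) (hα x.1) (hτm z.1)
      rw [hα0, hα0] at h3
      have h4 : dist ((0 : XB B), z.1) ((0 : XB B), x.1) = dist z x := by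
        rw [Prod.dist_eq, dist_self]
        exact max_eq_right dist_nonneg
      rw [h4] at h3
      have h5 := hlipt x.1 (τ z.1) (hτm z.1) (τ x.1) (hτm x.1)
      have h6 := dist_triangle (α z.1 (τ z.1)) (α x.1 (τ z.1)) (α x.1 (τ x.1))
      linarith
    refine squeeze_zero (fun _ => dist_nonneg) h1 ?_
    have h2 : Continuous fun z : ↥(Er hB) =>
        dist z x * Real.exp (K * T2) + C * |τ z.1 - τ x.1| := by
      have := hτc.comp (continuous_subtype_val (p := fun z => z ∈ Er hB))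
      exact ((continuous_id.dist continuous_const).mul continuous_const).add
        (continuous_const.mul (this.sub continuous_const).abs)
    have h3 := h2.tendsto x
    simpa using h3
  have hHen : ∀ x : ↥(Er hB), en B (H x).1 = en B x.1 := fun x =>
    hcons x.1 x.2 _ (hτm x.1)
  set y1 : ↥(Er hB) := ⟨y0, hy0r⟩ with hy1
  obtain ⟨x, hx⟩ := Pool.Agent.Helper133.Brouwer.brouwer (fun x => x - H x + y1)
    ((continuous_id.sub hHc).add continuous_const) (2 * Real.sqrt (r + 1) + ‖y1‖) (by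
      intro x
      have hnn : ∀ z : XB B, en B z ≤ r + 1 → ‖z‖ ≤ Real.sqrt (r + 1) := by
        intro z hz
        exact Real.le_sqrt_of_sq_le ((norm_sq_le_en z).trans hz)
      by_cases hx : r + 1 ≤ en B x.1
      · have h1 : τ x.1 = 0 := by
          have : max 0 (min 1 (r + 1 - en B x.1)) = 0 := by
            refine max_eq_left ((min_le_right _ _).trans ?_)
            linarith
          simp only [hτ]
          rw [this, mul_zero]
        have h2 : H x = x := by
          refine Subtype.ext ?_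
          show (α x.1 (τ x.1)).2 = x.1
          rw [h1, hα0]
        rw [h2, sub_self, zero_add]
        have := Real.sqrt_nonneg (r + 1)
        linarith
      · rw [not_le] at hx
        have h1 : ‖x‖ ≤ Real.sqrt (r + 1) := hnn x.1 hx.le
        have h2 : ‖H x‖ ≤ Real.sqrt (r + 1) := hnn (H x).1 (by rw [hHen]; exact hx.le)
        calc ‖x - H x + y1‖ ≤ ‖x‖ + ‖H x‖ + ‖y1‖ :=
              (norm_add_le _ _).trans (by gcongr; exact norm_sub_le _ _)
          _ ≤ _ := by linarith)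
  have hxy : H x = y1 := by
    have h1 : x - H x + y1 = x := hx
    have h2 : x - H x + y1 - x = 0 := by rw [h1, sub_self]
    have h3 : y1 - H x = 0 := by rw [← h2]; abel
    exact (sub_eq_zero.1 h3).symm
  have hex : en B x.1 = r := by
    rw [← hHen, hxy]
  have hτx : τ x.1 = T := by
    have : max 0 (min 1 (r + 1 - en B x.1)) = 1 := by
      rw [hex, show r + 1 - r = 1 by ring, min_self]
      exact max_eq_right zero_le_one
    simp only [hτ]
    rw [this, mul_one]
  have hxT : (α x.1 T).2 = y0 := by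
    have h1 := congrArg Subtype.val hxy
    rw [← hτx]
    exact h1
  have hchi : ∀ t ∈ Icc 0 T2, chi B R (α x.1 t) = 1 := by
    intro t ht
    have h1 := hcons x.1 x.2 t ht
    have h2 := henst x.1 x.2 t ht
    rw [hex] at h1 h2
    unfold chi
    refine Real.smoothTransition.one_of_one_le ?_
    have h3 : (en B (α x.1 t).1 + en B (α x.1 t).2) / R ≤ 1 := by
      rw [div_le_one hR0, h1]
      linarith
    linarith
  refine ⟨fun t => ext B (α x.1 t).1, fun t => ext B (α x.1 t).2, ⟨fun t k hk => dif_neg hk,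
    fun t k hk => dif_neg hk, fun t ht k => hreal1 x.1 x.2 t ht k,
    fun t ht k => hreal2 x.1 x.2 t ht k, fun t ht k hk => ?_, fun t ht k hk => ?_⟩,
    fun k hk => ?_, fun t ht => ?_, fun t ht => ?_⟩
  · have h1 := hasDerivWithinAt_pi.1 (hα x.1 t ht).fst ⟨k, hk⟩
    have h2 : ∀ s, ext B (α x.1 s).1 k = (α x.1 s).1 ⟨k, hk⟩ := fun s => dif_pos hk
    have h3 : ∀ s, ext B (α x.1 s).2 k = (α x.1 s).2 ⟨k, hk⟩ := fun s => dif_pos hk
    simp only [h2, h3]
    refine h1.congr_deriv ?_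
    unfold FF
    simp only [hchi t ht, Complex.ofReal_one, one_mul]
  · have h1 := hasDerivWithinAt_pi.1 (hα x.1 t ht).snd ⟨k, hk⟩
    have h3 : ∀ s, ext B (α x.1 s).2 k = (α x.1 s).2 ⟨k, hk⟩ := fun s => dif_pos hk
    simp only [h3]
    refine h1.congr_deriv ?_
    unfold FF
    simp only [hchi t ht, Complex.ofReal_one, one_mul]
  · show ext B (α x.1 T).2 k = y k
    rw [hxT]
    exact dif_pos hk
  · rw [← en_eq', hcons x.1 x.2 t ht, hex, hr, en_eq, ← Finset.sum_coe_sort B]
  · have h1 := henst x.1 x.2 t ht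
    have e1 : en B y0 = ∑ k ∈ B, ‖y k‖ ^ 2 := by
      rw [en_eq, ← Finset.sum_coe_sort B]
    rw [hex, hr, e1, en_eq'] at h1
    exact h1

end Pool.Agent.R211.BQ
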