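import Mathlib

/-!
The two-dimensional Boussinesq system with viscosity and without thermal diffusion on the torus
of side `L`: definitions.

The torus is parametrised by `x = L y`, where `y` is a point of `(ℝ / ℤ)²`, with the normalised
Haar measure. The frequencies are the points of `ℤ × ℤ`.
-/

set_option autoImplicit false

open Set Filter Topology MeasureTheory
open scoped ComplexConjugate ENNReal

namespace Pool.Agent.R211.BQ

/-- The torus. -/
abbrev T2 := Fin 2 → AddCircle (1 : ℝ)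

/-- The normalised Haar measure of the torus. -/
noncomputable def mu : Measure T2 :=
  Measure.pi fun _ => (AddCircle.haarAddCircle : Measure (AddCircle (1 : ℝ)))

/-- The function `exp(2πi k·y)`, that is `exp(i κ k·x)` with `κ = 2π / L`. -/
noncomputable def ex (k : ℤ × ℤ) (y : T2) : ℂ :=
  fourier k.1 (y 0) * fourier k.2 (y 1)

/-- The Fourier coefficient `∫ f exp(-i κ k·x)` of a real function. -/
noncomputable def fc (f : T2 → ℝ) (k : ℤ × ℤ) : ℂ := ∫ y, (f y : ℂ) * conj (ex k y) ∂mu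

/-- The `i`-th component of a frequency. -/
noncomputable def cm (k : ℤ × ℤ) (i : Fin 2) : ℝ := if i = 0 then k.1 else k.2

/-- The squared length of a frequency. -/
noncomputable def sq (k : ℤ × ℤ) : ℝ := (k.1 : ℝ) ^ 2 + (k.2 : ℝ) ^ 2

/-- The mean-free square integrable functions. -/
def L20 : Set (T2 → ℝ) := {f | MemLp f 2 mu ∧ ∫ y, f y ∂mu = 0}

/-- The space `H`: mean-free square integrable vector fields which are divergence free, that is
`∫ u · ∇φ = 0` for all `φ = exp(-i κ k·x)`. -/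
def Hs : Set (Fin 2 → T2 → ℝ) :=
  {u | (∀ i, u i ∈ L20) ∧ ∀ k : ℤ × ℤ, ∑ i, (cm k i : ℂ) * fc (u i) k = 0}

/-- The number `κ = 2π / L`. -/
noncomputable def kap (L : ℝ) : ℝ := 2 * Real.pi / L

/-- The squared norm of the gradient, with values in `[0, ∞]`: `‖∇u‖² = Σ κ²|k|²|û(k)|²`. -/
noncomputable def grad2 (L : ℝ) (u : Fin 2 → T2 → ℝ) : ℝ≥0∞ :=
  ∑' k : ℤ × ℤ, ENNReal.ofReal (kap L ^ 2 * sq k * ∑ i, ‖fc (u i) k‖ ^ 2)

/-- The factor by which `∂_j` multiplies `exp(-i κ k·x)`. -/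
noncomputable def dj (L : ℝ) (k : ℤ × ℤ) (j : Fin 2) : ℂ := -(Complex.I * (kap L * cm k j : ℝ))

/-- The Fourier coefficient of a product of two functions. -/
noncomputable def pr (f g : T2 → ℝ) (k : ℤ × ℤ) : ℂ := fc (fun y => f y * g y) k

/-- The pairing `∫ u · c exp(-i κ k·x)`. -/
noncomputable def pa (u : Fin 2 → T2 → ℝ) (k : ℤ × ℤ) (c : Fin 2 → ℂ) : ℂ :=
  ∑ i, c i * fc (u i) k

/-- The convective term `∫ (u ⊗ u) : ∇φ`, for `φ = c exp(-i κ k·x)`. -/
noncomputable def conv (L : ℝ) (u : Fin 2 → T2 → ℝ) (k : ℤ × ℤ) (c : Fin 2 → ℂ) : ℂ :=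
  ∑ i, ∑ j, c i * dj L k j * pr (u i) (u j) k

/-- The time derivative of `∫ u · φ` that the momentum equation prescribes, for the test field
`φ = c exp(-i κ k·x)`, namely `∫ (u ⊗ u : ∇φ + ν u · Δφ + g θ φ₂)`. -/
noncomputable def mom (L ν g : ℝ) (u : Fin 2 → T2 → ℝ) (θ : T2 → ℝ) (k : ℤ × ℤ)
    (c : Fin 2 → ℂ) : ℂ :=
  conv L u k c - (ν * (kap L ^ 2 * sq k) : ℝ) * pa u k c + g * c 1 * fc θ k

/-- The time derivative of `∫ θ φ` that the transport equation prescribes, for the test function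
`φ = exp(-i κ k·x)`, namely `∫ θ u · ∇φ`. -/
noncomputable def tra (L : ℝ) (u : Fin 2 → T2 → ℝ) (θ : T2 → ℝ) (k : ℤ × ℤ) : ℂ :=
  ∑ j, dj L k j * pr (u j) θ k

/-- Weak continuity on `J` of a function of time with values in `L²`. -/
def WCont (J : Set ℝ) (f : ℝ → T2 → ℝ) : Prop :=
  ∀ φ : T2 → ℝ, MemLp φ 2 mu → ContinuousOn (fun t => ∫ y, f t y * φ y ∂mu) J

/-- The velocity is in `L²_loc(J; V)`. -/
def VLoc (L : ℝ) (J : Set ℝ) (u : ℝ → Fin 2 → T2 → ℝ) : Prop :=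
  ∀ a ∈ J, ∀ b ∈ J, ∫⁻ t in Icc a b, grad2 L (u t) < ⊤

/-- `F` is, on `J`, an indefinite integral of `F'`. -/
def Prim (J : Set ℝ) (F F' : ℝ → ℂ) : Prop :=
  ∀ a ∈ J, ∀ b ∈ J, a ≤ b → IntervalIntegrable F' volume a b ∧ F b - F a = ∫ t in a..b, F' t

/-- The momentum equation on `J`, tested against all divergence free `c exp(-i κ k·x)`, that is
`c · k = 0`, in the form integrated over `[a, b]`, for all `a ≤ b` in `J`. -/
def MomEq (L ν g : ℝ) (J : Set ℝ) (u : ℝ → Fin 2 → T2 → ℝ) (θ : ℝ → T2 → ℝ) : Prop :=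
  ∀ (k : ℤ × ℤ) (c : Fin 2 → ℂ), ∑ i, (cm k i : ℂ) * c i = 0 →
    Prim J (fun t => pa (u t) k c) fun t => mom L ν g (u t) (θ t) k c

/-- The transport equation on `J`, tested against all `exp(-i κ k·x)`, in the form integrated over
`[a, b]`, for all `a ≤ b` in `J`. -/
def TraEq (L : ℝ) (J : Set ℝ) (u : ℝ → Fin 2 → T2 → ℝ) (θ : ℝ → T2 → ℝ) : Prop :=
  ∀ k : ℤ × ℤ, Prim J (fun t => fc (θ t) k) fun t => tra L (u t) (θ t) k

/-- `(u, θ)` is a solution on the interval `J`: the velocity is in `C_w(J; H) ∩ L²_loc(J; V)`, the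
temperature is in `C_w(J; L²)`, and the momentum equation (tested against divergence free
trigonometric polynomials) and the transport equation (tested against trigonometric polynomials)
hold. -/
structure IsSol (L ν g : ℝ) (J : Set ℝ) (u : ℝ → Fin 2 → T2 → ℝ) (θ : ℝ → T2 → ℝ) : Prop where
  memH : ∀ t ∈ J, u t ∈ Hs
  memL : ∀ t ∈ J, θ t ∈ L20
  contU : ∀ i, WCont J fun t => u t i
  contΘ : WCont J θ
  memV : VLoc L J u
  momentum : MomEq L ν g J u θ
  transport : TraEq L J u θ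

/-- The squared `L²` norms of the components of `u` and of `θ` are at most `M`. -/
def Bdd (M : ℝ) (u : Fin 2 → T2 → ℝ) (θ : T2 → ℝ) : Prop :=
  (∀ i, ∫ y, u i y ^ 2 ∂mu ≤ M) ∧ ∫ y, θ y ^ 2 ∂mu ≤ M

/-- The attractor: the points of bounded solutions on `ℝ`. -/
def Att (L ν g : ℝ) : Set ((Fin 2 → T2 → ℝ) × (T2 → ℝ)) :=
  {p | ∃ (u : ℝ → Fin 2 → T2 → ℝ) (θ : ℝ → T2 → ℝ), IsSol L ν g univ u θ ∧
    (∃ M : ℝ, ∀ t, Bdd M (u t) (θ t)) ∧ u 0 = p.1 ∧ θ 0 = p.2}

end Pool.Agent.R211.BQ
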