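import Pool.Agent.R211.BQ.Ode

/-!
The conservation of the norm of the temperature and the bound for the enstrophy.
-/

set_option autoImplicit false

open Set Filter Topology MeasureTheory
open scoped ComplexConjugate ENNReal NNReal ContDiff

namespace Pool.Agent.R211.BQ

/-- The transport term is skew. -/
lemma skew {B : Finset K2} {w : K2 → ℂ} (hw : ∀ l, conj (w l) = w (-l)) (f : K2 → ℂ) :
    (∑ k ∈ B, conj (f k) * nlB B w f k).re = 0 := by
  set S := ∑ k ∈ B, conj (f k) * nlB B w f k with hS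
  have h1 : S = ∑ k ∈ B, ∑ l ∈ B, conj (f k) * ((cf k l : ℂ) * w (k - l) * f l) := by
    rw [hS]
    unfold nlB
    simp only [Finset.mul_sum]
  have h2 : conj S = -S := by
    calc conj S = ∑ k ∈ B, ∑ l ∈ B, conj (conj (f k) * ((cf k l : ℂ) * w (k - l) * f l)) := by
          rw [h1, map_sum]
          exact Finset.sum_congr rfl fun k _ => map_sum _ _ _
      _ = ∑ l ∈ B, ∑ k ∈ B, conj (conj (f k) * ((cf k l : ℂ) * w (k - l) * f l)) :=
          Finset.sum_comm
      _ = -S := by
          rw [h1, ← Finset.sum_neg_distrib]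
          refine Finset.sum_congr rfl fun l _ => ?_
          rw [← Finset.sum_neg_distrib]
          refine Finset.sum_congr rfl fun k _ => ?_
          simp only [map_mul, Complex.conj_conj, Complex.conj_ofReal, hw]
          rw [cf_swap l k]
          have h : -(k - l) = l - k := by abel
          rw [h]
          push_cast
          ring
  have h3 := congrArg Complex.re h2
  rw [Complex.conj_re, Complex.neg_re] at h3
  linarith

lemma en_eq (B : Finset K2) (x : XB B) : en B x = ∑ k : ↥B, ‖x k‖ ^ 2 := by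
  unfold en
  refine Finset.sum_congr rfl fun k _ => ?_
  rw [Complex.sq_norm, Complex.normSq_apply]
  ring

lemma en_eq' (B : Finset K2) (x : XB B) : en B x = ∑ k ∈ B, ‖ext B x k‖ ^ 2 := by
  rw [en_eq, ← Finset.sum_coe_sort B]
  refine Finset.sum_congr rfl fun k _ => ?_
  have h1 : ext B x k = x k := by
    unfold ext
    rw [dif_pos k.2]
  rw [h1]

lemma ext_coe {B : Finset K2} (x : XB B) (k : ↥B) : ext B x k = x k := by
  unfold ext
  rw [dif_pos k.2]

/-- The derivative of the squared norm. -/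
lemma en_deriv {B : Finset K2} {β : ℝ → XB B} {b : XB B} {s : Set ℝ} {t : ℝ}
    (h : HasDerivWithinAt β b s t) :
    HasDerivWithinAt (fun r => en B (β r)) (∑ k : ↥B, 2 * (conj (β t k) * b k).re) s t := by
  simp only [en_eq]
  rw [hasDerivWithinAt_pi] at h
  refine HasDerivWithinAt.fun_sum fun k _ => ?_
  refine (h k).norm_sq.congr_deriv ?_
  rw [Complex.inner]
  congr 2
  exact mul_comm _ _

section sol

variable {B : Finset K2} {ν g R T : ℝ} {α : ℝ → XB B × XB B}

/-- The temperature norm is constant. -/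
lemma temp_const
    (hre : ∀ t ∈ Icc 0 T, ∀ l, conj (ext B (α t).1 l) = ext B (α t).1 (-l))
    (hα : ∀ t ∈ Icc 0 T, HasDerivWithinAt α (FF B ν g R (α t)) (Icc 0 T) t) :
    ∀ t ∈ Icc 0 T, en B (α t).2 = en B (α 0).2 := by
  have hd : ∀ t ∈ Icc 0 T, HasDerivWithinAt (fun r => en B (α r).2) 0 (Icc 0 T) t := by
    intro t ht
    refine (en_deriv (hα t ht).snd).congr_deriv ?_
    have h1 : ∑ k : ↥B, 2 * (conj ((α t).2 k) * (FF B ν g R (α t)).2 k).re
        = -2 * chi B R (α t) * (∑ k ∈ B, conj (ext B (α t).2 k)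
            * nlB B (ext B (α t).1) (ext B (α t).2) k).re := by
      rw [Complex.re_sum, ← Finset.sum_coe_sort B, Finset.mul_sum]
      refine Finset.sum_congr rfl fun k _ => ?_
      rw [ext_coe]
      unfold FF
      simp only
      have h2 : conj ((α t).2 k) * ((chi B R (α t) : ℂ)
          * (-(nlB B (ext B (α t).1) (ext B (α t).2) k)))
          = ((-chi B R (α t) : ℝ) : ℂ) * (conj ((α t).2 k)
            * nlB B (ext B (α t).1) (ext B (α t).2) k) := by
        push_cast
        ring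
      rw [h2, Complex.re_ofReal_mul]
      ring
    rw [h1, skew (hre t ht), mul_zero]
  exact constant_of_has_deriv_right_zero (fun t ht => (hd t ht).continuousWithinAt)
    fun t ht => right_deriv (hd t (Ico_subset_Icc_self ht)) ht

/-- The bound for the enstrophy. -/
lemma enst_le (hν : 0 < ν) (h0 : (0 : K2) ∉ B)
    (hre : ∀ t ∈ Icc 0 T, ∀ l, conj (ext B (α t).1 l) = ext B (α t).1 (-l))
    (hα : ∀ t ∈ Icc 0 T, HasDerivWithinAt α (FF B ν g R (α t)) (Icc 0 T) t)
    (hi : en B (α 0).1 ≤ g ^ 2 * en B (α 0).2 / ν ^ 2) :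
    ∀ t ∈ Icc 0 T, en B (α t).1 ≤ g ^ 2 * en B (α 0).2 / ν ^ 2 := by
  set N := en B (α 0).2 with hN
  have hN0 : 0 ≤ N := en_nonneg _
  have hT := temp_const hre hα
  have hd : ∀ t ∈ Icc 0 T, ∃ D : ℝ, HasDerivWithinAt (fun r => en B (α r).1) D (Icc 0 T) t ∧
      D ≤ chi B R (α t) * (-ν * en B (α t).1 + g ^ 2 * N / ν) := by
    intro t ht
    refine ⟨_, en_deriv (hα t ht).fst, ?_⟩
    set w := (α t).1 with hw
    set f := (α t).2 with hf
    have h1 : ∀ k : ↥B, 2 * (conj (w k) * (FF B ν g R (α t)).1 k).re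
        = chi B R (α t) * (-2 * (conj (ext B w k) * nlB B (ext B w) (ext B w) k).re
          - 2 * ν * n2 k * ‖w k‖ ^ 2
          + 2 * (conj (w k) * (Complex.I * ((g * (k : K2).1 : ℝ) : ℂ) * f k)).re) := by
      intro k
      rw [ext_coe]
      unfold FF
      simp only
      rw [← hw, ← hf]
      have h2 : conj (w k) * ((chi B R (α t) : ℂ) * (-(nlB B (ext B w) (ext B w) k)
          - ((ν * n2 k : ℝ) : ℂ) * w k + Complex.I * ((g * (k : K2).1 : ℝ) : ℂ) * f k))
          = (chi B R (α t) : ℂ) * (-(conj (w k) * nlB B (ext B w) (ext B w) k)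
            - ((ν * n2 k * ‖w k‖ ^ 2 : ℝ) : ℂ)
            + conj (w k) * (Complex.I * ((g * (k : K2).1 : ℝ) : ℂ) * f k)) := by
        push_cast
        rw [← Complex.conj_mul']
        ring
      rw [h2, Complex.re_ofReal_mul, Complex.add_re, Complex.sub_re, Complex.neg_re,
        Complex.ofReal_re]
      ring
    have h3 : ∀ k : ↥B, 2 * (conj (w k) * (Complex.I * ((g * (k : K2).1 : ℝ) : ℂ) * f k)).re
        ≤ ν * n2 k * ‖w k‖ ^ 2 + g ^ 2 / ν * ‖f k‖ ^ 2 := by
      intro k
      have h4 : (conj (w k) * (Complex.I * ((g * (k : K2).1 : ℝ) : ℂ) * f k)).re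
          ≤ ‖w k‖ * (|g| * |((k : K2).1 : ℝ)| * ‖f k‖) := by
        refine (Complex.re_le_norm _).trans (le_of_eq ?_)
        rw [norm_mul, norm_mul, norm_mul, Complex.norm_I, one_mul, Complex.norm_real,
          Real.norm_eq_abs, abs_mul, RCLike.norm_conj]
      have h5 : (((k : K2).1 : ℝ)) ^ 2 ≤ (n2 k : ℝ) := by
        unfold n2
        push_cast
        nlinarith [sq_nonneg (((k : K2).2 : ℝ))]
      have h6 : 2 * (‖w k‖ * (|g| * |((k : K2).1 : ℝ)| * ‖f k‖))
          ≤ ν * (((k : K2).1 : ℝ)) ^ 2 * ‖w k‖ ^ 2 + g ^ 2 / ν * ‖f k‖ ^ 2 := by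
        have h7 : 0 ≤ (Real.sqrt ν * |((k : K2).1 : ℝ)| * ‖w k‖ - |g| / Real.sqrt ν * ‖f k‖) ^ 2 :=
          sq_nonneg _
        have h8 : Real.sqrt ν ^ 2 = ν := Real.sq_sqrt hν.le
        have h9 : Real.sqrt ν ≠ 0 := (Real.sqrt_pos.2 hν).ne'
        have h10 : (Real.sqrt ν * |((k : K2).1 : ℝ)| * ‖w k‖ - |g| / Real.sqrt ν * ‖f k‖) ^ 2
            = Real.sqrt ν ^ 2 * |((k : K2).1 : ℝ)| ^ 2 * ‖w k‖ ^ 2
              - 2 * (‖w k‖ * (|g| * |((k : K2).1 : ℝ)| * ‖f k‖))
              + |g| ^ 2 / Real.sqrt ν ^ 2 * ‖f k‖ ^ 2 := by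
          field_simp
          ring
        rw [h10, h8, sq_abs, sq_abs] at h7
        linarith
      have h11 : ν * (((k : K2).1 : ℝ)) ^ 2 * ‖w k‖ ^ 2 ≤ ν * n2 k * ‖w k‖ ^ 2 := by gcongr
      linarith
    have h12 : ∀ k : ↥B, (1 : ℝ) ≤ n2 k := by
      intro k
      have h13 : (k : K2) ≠ 0 := fun h => h0 (h ▸ k.2)
      have h14 : 1 ≤ n2 k := by
        unfold n2
        by_contra hcon
        have h15 : (k : K2).1 = 0 := by nlinarith [sq_nonneg (k : K2).1, sq_nonneg (k : K2).2]
        have h16 : (k : K2).2 = 0 := by nlinarith [sq_nonneg (k : K2).1, sq_nonneg (k : K2).2]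
        exact h13 (Prod.ext h15 h16)
      exact_mod_cast h14
    calc ∑ k : ↥B, 2 * (conj (w k) * (FF B ν g R (α t)).1 k).re
        = chi B R (α t) * ∑ k : ↥B, (-2 * (conj (ext B w k) * nlB B (ext B w) (ext B w) k).re
          - 2 * ν * n2 k * ‖w k‖ ^ 2
          + 2 * (conj (w k) * (Complex.I * ((g * (k : K2).1 : ℝ) : ℂ) * f k)).re) := by
          rw [Finset.mul_sum]
          exact Finset.sum_congr rfl fun k _ => h1 k
      _ ≤ chi B R (α t) * ∑ k : ↥B, (-2 * (conj (ext B w k) * nlB B (ext B w) (ext B w) k).re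
          - ν * ‖w k‖ ^ 2 + g ^ 2 / ν * ‖f k‖ ^ 2) := by
          refine mul_le_mul_of_nonneg_left (Finset.sum_le_sum fun k _ => ?_) (chi_nonneg _ _)
          have h17 : ν * 1 * ‖w k‖ ^ 2 ≤ ν * n2 k * ‖w k‖ ^ 2 := by
            have := h12 k
            gcongr
          linarith [h3 k]
      _ = chi B R (α t) * (-ν * en B w + g ^ 2 * N / ν) := by
          congr 1
          rw [Finset.sum_add_distrib, Finset.sum_sub_distrib, ← Finset.mul_sum, ← Finset.mul_sum,
            ← Finset.mul_sum, ← en_eq, ← en_eq, hT t ht]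
          have h18 := skew (B := B) (hre t ht) (ext B w)
          rw [Complex.re_sum, ← Finset.sum_coe_sort B] at h18
          rw [h18]
          ring
  choose! D hD1 hD2 using hd
  have key : ∀ ε > 0, ∀ t ∈ Icc 0 T, en B (α t).1 ≤ g ^ 2 * N / ν ^ 2 + ε * (1 + t) := by
    intro ε hε
    have hb := image_le_of_deriv_right_lt_deriv_boundary (f := fun r => en B (α r).1)
      (f' := D) (a := 0) (b := T) (B := fun t => g ^ 2 * N / ν ^ 2 + ε * (1 + t))
      (B' := fun _ => ε) (fun t ht => (hD1 t ht).continuousWithinAt)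
      (fun t ht => right_deriv (hD1 t (Ico_subset_Icc_self ht)) ht) (by
        show en B (α 0).1 ≤ _
        linarith) (fun t => by
        have h := ((hasDerivAt_id t).const_add (1 : ℝ)).const_mul ε
        simpa using h.const_add (g ^ 2 * N / ν ^ 2)) ?_
    · exact fun t ht => hb ht
    · intro t ht heq
      have h1 := hD2 t (Ico_subset_Icc_self ht)
      have h2 : -ν * en B (α t).1 + g ^ 2 * N / ν ≤ 0 := by
        rw [heq]
        have h3 : -ν * (g ^ 2 * N / ν ^ 2 + ε * (1 + t)) + g ^ 2 * N / ν = -(ν * ε * (1 + t)) := by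
          field_simp
          ring
        rw [h3]
        have := ht.1
        have : 0 ≤ ν * ε * (1 + t) := by positivity
        linarith
      have h4 : chi B R (α t) * (-ν * en B (α t).1 + g ^ 2 * N / ν) ≤ 0 :=
        mul_nonpos_of_nonneg_of_nonpos (chi_nonneg _ _) h2
      linarith
  intro t ht
  refine le_of_forall_pos_le_add fun ε hε => ?_
  have ht0 : 0 < 1 + t := by linarith [ht.1]
  have h1 := key (ε / (1 + t)) (by positivity) t ht
  rwa [div_mul_cancel₀ _ ht0.ne'] at h1

end sol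

end Pool.Agent.R211.BQ
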