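import Pool.Agent.R211.BQ.Lim

/-!
Equicontinuity of the right hand sides of the Galerkin systems.
-/

set_option autoImplicit false

open Set Filter Topology MeasureTheory
open scoped ComplexConjugate ENNReal NNReal ContDiff

namespace Pool.Agent.R211.BQ

/-- The right hand side of the equation for the vorticity. -/
noncomputable def rW (B : Finset K2) (ν g : ℝ) (w f : K2 → ℂ) (k : K2) : ℂ :=
  -(nlB B w w k) - ((ν * n2 k : ℝ) : ℂ) * w k + Complex.I * ((g * k.1 : ℝ) : ℂ) * f k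

/-- The constant in the bound of the right hand side for the vorticity. -/
noncomputable def cW (ν g C D : ℝ) (k : K2) : ℝ :=
  ln k * (Real.sqrt C * Real.sqrt C) + |ν * n2 k| * Real.sqrt C + |g * k.1| * Real.sqrt D

lemma cW_nonneg (ν g C D : ℝ) (k : K2) : 0 ≤ cW ν g C D k := by
  unfold cW
  have := ln_nonneg k
  positivity

lemma rW_le {B : Finset K2} {ν g C D : ℝ} {w f : K2 → ℂ} (hw : LB C w) (hf : LB D f) (k : K2) :
    ‖rW B ν g w f k‖ ≤ cW ν g C D k := by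
  unfold rW cW
  have h1 := nlB_le hw hw (k := k) (S := B) (ln_nonneg k) fun l _ => abs_cf_le k l
  have h2 : ‖((ν * n2 k : ℝ) : ℂ) * w k‖ ≤ |ν * n2 k| * Real.sqrt C := by
    rw [norm_mul, Complex.norm_real, Real.norm_eq_abs]
    exact mul_le_mul_of_nonneg_left (hw.norm_le k) (abs_nonneg _)
  have h3 : ‖Complex.I * ((g * k.1 : ℝ) : ℂ) * f k‖ ≤ |g * k.1| * Real.sqrt D := by
    rw [norm_mul, norm_mul, Complex.norm_I, one_mul, Complex.norm_real, Real.norm_eq_abs]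
    exact mul_le_mul_of_nonneg_left (hf.norm_le k) (abs_nonneg _)
  calc _ ≤ ‖-(nlB B w w k) - ((ν * n2 k : ℝ) : ℂ) * w k‖
        + ‖Complex.I * ((g * k.1 : ℝ) : ℂ) * f k‖ := norm_add_le _ _
    _ ≤ (‖-(nlB B w w k)‖ + ‖((ν * n2 k : ℝ) : ℂ) * w k‖)
        + ‖Complex.I * ((g * k.1 : ℝ) : ℂ) * f k‖ := by gcongr; exact norm_sub_le _ _
    _ ≤ _ := by
      rw [norm_neg]
      linarith

/-- The bounds of a family of Galerkin solutions. -/
structure GB (B : Finset K2) (ν g C D T : ℝ) (W Θ : ℝ → K2 → ℂ) : Prop extends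
    GSol B ν g T W Θ where
  bW : ∀ t ∈ Icc 0 T, LB C (W t)
  bΘ : ∀ t ∈ Icc 0 T, LB D (Θ t)

section equi

variable {B : Finset K2} {ν g C D T : ℝ} {W Θ : ℝ → K2 → ℂ}

lemma lip_of_deriv {f f' : ℝ → ℂ} {L : ℝ}
    (h : ∀ t ∈ Icc 0 T, HasDerivWithinAt f (f' t) (Icc 0 T) t) (hb : ∀ t ∈ Icc 0 T, ‖f' t‖ ≤ L)
    {s t : ℝ} (hs : s ∈ Icc 0 T) (ht : t ∈ Icc 0 T) : ‖f t - f s‖ ≤ L * |t - s| := by
  have h1 := (convex_Icc 0 T).norm_image_sub_le_of_norm_hasDerivWithin_le h hb hs ht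
  simpa [Real.norm_eq_abs] using h1

lemma GB.derW' (h : GB B ν g C D T W Θ) (k : K2) : ∀ t ∈ Icc 0 T,
    HasDerivWithinAt (fun s => W s k) (if k ∈ B then rW B ν g (W t) (Θ t) k else 0)
      (Icc 0 T) t := by
  intro t ht
  by_cases hk : k ∈ B
  · rw [if_pos hk]
    exact h.derW t ht k hk
  · rw [if_neg hk]
    have : (fun s => W s k) = fun _ => 0 := by
      funext s
      exact h.spW s k hk
    rw [this]
    exact hasDerivWithinAt_const _ _ _

lemma GB.derΘ' (h : GB B ν g C D T W Θ) (k : K2) : ∀ t ∈ Icc 0 T,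
    HasDerivWithinAt (fun s => Θ s k) (if k ∈ B then -(nlB B (W t) (Θ t) k) else 0)
      (Icc 0 T) t := by
  intro t ht
  by_cases hk : k ∈ B
  · rw [if_pos hk]
    exact h.derΘ t ht k hk
  · rw [if_neg hk]
    have : (fun s => Θ s k) = fun _ => 0 := by
      funext s
      exact h.spΘ s k hk
    rw [this]
    exact hasDerivWithinAt_const _ _ _

lemma GB.lipW (h : GB B ν g C D T W Θ) (k : K2) {s t : ℝ} (hs : s ∈ Icc 0 T)
    (ht : t ∈ Icc 0 T) : ‖W t k - W s k‖ ≤ cW ν g C D k * |t - s| := by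
  refine lip_of_deriv (h.derW' k) (fun t ht => ?_) hs ht
  split_ifs
  · exact rW_le (h.bW t ht) (h.bΘ t ht) k
  · rw [norm_zero]
    exact cW_nonneg _ _ _ _ _

lemma GB.lipΘ (h : GB B ν g C D T W Θ) (k : K2) {s t : ℝ} (hs : s ∈ Icc 0 T)
    (ht : t ∈ Icc 0 T) :
    ‖Θ t k - Θ s k‖ ≤ ln k * (Real.sqrt C * Real.sqrt D) * |t - s| := by
  refine lip_of_deriv (h.derΘ' k) (fun t ht => ?_) hs ht
  have := ln_nonneg k
  split_ifs
  · rw [norm_neg]
    exact nlB_le (h.bW t ht) (h.bΘ t ht) (ln_nonneg k) fun l _ => abs_cf_le k l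
  · rw [norm_zero]
    positivity

end equi

/-- Equicontinuity of the transport term. -/
lemma equi_nlB (C D : ℝ) (LW LF : K2 → ℝ) (k : K2) {ε : ℝ} (hε : 0 < ε) :
    ∃ δ > 0, ∀ (B : Finset K2) (I : Set ℝ) (W F : ℝ → K2 → ℂ), (∀ t ∈ I, LB C (W t)) →
      (∀ t ∈ I, LB D (F t)) → (∀ t, ∀ l ∉ B, F t l = 0) →
      (∀ l, ∀ s ∈ I, ∀ t ∈ I, ‖W t l - W s l‖ ≤ LW l * |t - s|) →
      (∀ l, ∀ s ∈ I, ∀ t ∈ I, ‖F t l - F s l‖ ≤ LF l * |t - s|) →
      ∀ s ∈ I, ∀ t ∈ I, |t - s| ≤ δ → ‖nlB B (W t) (F t) k - nlB B (W s) (F s) k‖ ≤ ε := by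
  have hE : 0 ≤ ln k * (Real.sqrt C * Real.sqrt D) := by
    have := ln_nonneg k
    positivity
  obtain ⟨M, hM⟩ := exists_nat_gt (3 * (ln k * (Real.sqrt C * Real.sqrt D)) / ε)
  have hM0 : (0 : ℝ) < M := lt_of_le_of_lt (by positivity) hM
  have hM1 : 0 < M := by exact_mod_cast hM0
  have hb : ln k / M * (Real.sqrt C * Real.sqrt D) ≤ ε / 3 := by
    rw [div_lt_iff₀ hε] at hM
    rw [div_mul_eq_mul_div, div_le_iff₀ hM0]
    linarith
  set G : ℝ := ∑ l ∈ SM k M, ln k * (|LW (k - l)| * Real.sqrt D + Real.sqrt C * |LF l|) with hG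
  have hG0 : 0 ≤ G := Finset.sum_nonneg fun l _ => by
    have := ln_nonneg k
    positivity
  refine ⟨ε / (3 * (G + 1)), by positivity, fun B I W F hW hF hs hLW hLF s hsI t htI hst => ?_⟩
  have h1 := nlB_sdiff (hW t htI) (hF t htI) (k := k) (hs t) hM1
  have h2 := nlB_sdiff (hW s hsI) (hF s hsI) (k := k) (hs s) hM1
  have h3 : ‖nlB (SM k M) (W t) (F t) k - nlB (SM k M) (W s) (F s) k‖ ≤ G * |t - s| := by
    unfold nlB
    rw [← Finset.sum_sub_distrib, hG, Finset.sum_mul]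
    refine (norm_sum_le _ _).trans (Finset.sum_le_sum fun l _ => ?_)
    have e1 : (cf k l : ℂ) * W t (k - l) * F t l - (cf k l : ℂ) * W s (k - l) * F s l
        = (cf k l : ℂ) * ((W t (k - l) - W s (k - l)) * F t l
          + W s (k - l) * (F t l - F s l)) := by ring
    rw [e1, norm_mul, Complex.norm_real, Real.norm_eq_abs, mul_assoc (ln k)]
    refine mul_le_mul (abs_cf_le k l) ?_ (norm_nonneg _) (ln_nonneg k)
    refine (norm_add_le _ _).trans ?_
    rw [norm_mul, norm_mul, add_mul]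
    refine add_le_add ?_ ?_
    · calc ‖W t (k - l) - W s (k - l)‖ * ‖F t l‖
          ≤ (|LW (k - l)| * |t - s|) * Real.sqrt D :=
            mul_le_mul ((hLW _ s hsI t htI).trans
              (mul_le_mul_of_nonneg_right (le_abs_self _) (abs_nonneg _)))
              ((hF t htI).norm_le l) (norm_nonneg _) (by positivity)
        _ = _ := by ring
    · calc ‖W s (k - l)‖ * ‖F t l - F s l‖ ≤ Real.sqrt C * (|LF l| * |t - s|) :=
            mul_le_mul ((hW s hsI).norm_le _) ((hLF _ s hsI t htI).trans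
              (mul_le_mul_of_nonneg_right (le_abs_self _) (abs_nonneg _)))
              (norm_nonneg _) (Real.sqrt_nonneg _)
        _ = _ := by ring
  have h4 : G * |t - s| ≤ ε / 3 := by
    calc G * |t - s| ≤ (G + 1) * (ε / (3 * (G + 1))) :=
          mul_le_mul (by linarith) hst (abs_nonneg _) (by linarith)
      _ = ε / 3 := by
        field_simp
  have h6 : nlB B (W t) (F t) k - nlB B (W s) (F s) k
      = (nlB B (W t) (F t) k - nlB (SM k M) (W t) (F t) k)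
        + (nlB (SM k M) (W t) (F t) k - nlB (SM k M) (W s) (F s) k)
        - (nlB B (W s) (F s) k - nlB (SM k M) (W s) (F s) k) := by ring
  rw [h6]
  refine ((norm_sub_le _ _).trans (add_le_add_left (norm_add_le _ _) _)).trans ?_
  linarith

/-- First order expansion from the modulus of continuity of the derivative. -/
lemma expand {T : ℝ} {f f' : ℝ → ℂ}
    (h : ∀ t ∈ Icc 0 T, HasDerivWithinAt f (f' t) (Icc 0 T) t) {ε δ : ℝ}
    (he : ∀ s ∈ Icc 0 T, ∀ t ∈ Icc 0 T, |t - s| ≤ δ → ‖f' t - f' s‖ ≤ ε) {s t : ℝ}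
    (hs : s ∈ Icc 0 T) (ht : t ∈ Icc 0 T) (hst : |t - s| ≤ δ) :
    ‖f t - f s - ((t - s : ℝ) : ℂ) * f' s‖ ≤ ε * |t - s| := by
  have hd : ∀ x ∈ uIcc s t, HasDerivWithinAt (fun r => f r - ((r : ℝ) : ℂ) * f' s)
      (f' x - f' s) (uIcc s t) x := by
    intro x hx
    have hx' : x ∈ Icc 0 T := (uIcc_subset_Icc hs ht) hx
    have h1 := (h x hx').mono (uIcc_subset_Icc hs ht)
    have h2 : HasDerivWithinAt (fun r : ℝ => ((r : ℝ) : ℂ) * f' s) (1 * f' s) (uIcc s t) x :=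
      ((Complex.ofRealCLM.hasDerivAt (x := x)).hasDerivWithinAt).mul_const _
    rw [one_mul] at h2
    exact h1.sub h2
  have hb : ∀ x ∈ uIcc s t, ‖f' x - f' s‖ ≤ ε := by
    intro x hx
    have hx' : x ∈ Icc 0 T := (uIcc_subset_Icc hs ht) hx
    refine he s hs x hx' ?_
    rcases le_total s t with hle | hle
    · rw [uIcc_of_le hle] at hx
      rw [abs_of_nonneg (by linarith [hx.1])]
      rw [abs_of_nonneg (by linarith)] at hst
      linarith [hx.2]
    · rw [uIcc_of_ge hle] at hx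
      rw [abs_of_nonpos (by linarith [hx.2])]
      rw [abs_of_nonpos (by linarith)] at hst
      linarith [hx.1]
  have h1 := (convex_uIcc s t).norm_image_sub_le_of_norm_hasDerivWithin_le hd hb
    left_mem_uIcc right_mem_uIcc
  rw [Real.norm_eq_abs] at h1
  refine le_trans (le_of_eq ?_) h1
  congr 1
  push_cast
  ring

end Pool.Agent.R211.BQ
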