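import Pool.Agent.R211.BQ.Brw

/-!
The transport term for square summable coefficients, and the limit of the Galerkin solutions.
-/

set_option autoImplicit false

open Set Filter Topology MeasureTheory
open scoped ComplexConjugate ENNReal NNReal ContDiff

namespace Pool.Agent.R211.BQ

/-- The length of a frequency. -/
noncomputable def ln (k : K2) : ℝ := Real.sqrt (n2 k)

lemma ln_nonneg (k : K2) : 0 ≤ ln k := Real.sqrt_nonneg _

lemma n2_nonneg (k : K2) : 0 ≤ n2 k := by unfold n2; positivity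

lemma ln_sq (k : K2) : ln k ^ 2 = n2 k := Real.sq_sqrt (by exact_mod_cast n2_nonneg k)

lemma one_le_n2 {k : K2} (hk : k ≠ 0) : 1 ≤ n2 k := by
  unfold n2
  by_contra hcon
  have h15 : k.1 = 0 := by nlinarith [sq_nonneg k.1, sq_nonneg k.2]
  have h16 : k.2 = 0 := by nlinarith [sq_nonneg k.1, sq_nonneg k.2]
  exact hk (Prod.ext h15 h16)

lemma one_le_ln {k : K2} (hk : k ≠ 0) : 1 ≤ ln k := by
  unfold ln
  rw [Real.one_le_sqrt]
  exact_mod_cast one_le_n2 hk

lemma ln_pos {k : K2} (hk : k ≠ 0) : 0 < ln k := lt_of_lt_of_le one_pos (one_le_ln hk)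

lemma abs_cr_le (k l : K2) : |(cr k l : ℝ)| ≤ ln k * ln (k - l) := by
  rw [← Real.sqrt_sq (mul_nonneg (ln_nonneg k) (ln_nonneg (k - l)))]
  refine Real.abs_le_sqrt ?_
  rw [mul_pow, ln_sq, ln_sq]
  unfold cr n2
  simp only [Prod.fst_sub, Prod.snd_sub]
  push_cast
  nlinarith [sq_nonneg ((k.1 : ℝ) * (k.1 - l.1) + k.2 * (k.2 - l.2))]

lemma abs_cf_mul (k l : K2) : |cf k l| * ln (k - l) ≤ ln k := by
  by_cases h : k - l = 0
  · rw [h]
    have : ln 0 = 0 := by unfold ln n2; simp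
    rw [this, mul_zero]
    exact ln_nonneg k
  · have h1 := ln_pos h
    unfold cf
    rw [abs_div, ← ln_sq, abs_of_nonneg (sq_nonneg (ln (k - l)))]
    rw [div_mul_eq_mul_div, div_le_iff₀ (by positivity)]
    have h2 := abs_cr_le k l
    calc |(cr k l : ℝ)| * ln (k - l) ≤ ln k * ln (k - l) * ln (k - l) := by gcongr
      _ = ln k * ln (k - l) ^ 2 := by ring

lemma cf_self (k : K2) : cf k k = 0 := by
  unfold cf cr
  have : k.1 * k.2 - k.2 * k.1 = 0 := by ring
  rw [this]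
  simp

lemma abs_cf_le (k l : K2) : |cf k l| ≤ ln k := by
  by_cases h : k - l = 0
  · rw [sub_eq_zero.1 h, cf_self, abs_zero]
    exact ln_nonneg l
  · have h1 := one_le_ln h
    have h2 := abs_cf_mul k l
    nlinarith [abs_nonneg (cf k l)]

/-- Square summability with a bound. -/
def LB (C : ℝ) (a : K2 → ℂ) : Prop := ∀ S : Finset K2, ∑ k ∈ S, ‖a k‖ ^ 2 ≤ C

lemma LB.nonneg {C : ℝ} {a : K2 → ℂ} (h : LB C a) : 0 ≤ C := by
  have := h ∅
  simpa using this

lemma LB.norm_le {C : ℝ} {a : K2 → ℂ} (h : LB C a) (k : K2) : ‖a k‖ ≤ Real.sqrt C := by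
  refine Real.le_sqrt_of_sq_le ?_
  have := h {k}
  simpa using this

lemma LB.summable {C : ℝ} {a : K2 → ℂ} (h : LB C a) : Summable fun k => ‖a k‖ ^ 2 :=
  summable_of_sum_le (fun _ => sq_nonneg _) h

lemma LB.shift {C : ℝ} {a : K2 → ℂ} (h : LB C a) (k : K2) (S : Finset K2) :
    ∑ l ∈ S, ‖a (k - l)‖ ^ 2 ≤ C := by
  classical
  have h1 := h (S.image fun l => k - l)
  rwa [Finset.sum_image fun a _ b _ hab => by
    have : k - a = k - b := hab
    exact sub_right_injective this] at h1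

lemma sum_mul_le {C D : ℝ} {w f : K2 → ℂ} (hw : LB C w) (hf : LB D f) (k : K2) (S : Finset K2) :
    ∑ l ∈ S, ‖w (k - l)‖ * ‖f l‖ ≤ Real.sqrt C * Real.sqrt D := by
  refine (Real.sum_mul_le_sqrt_mul_sqrt S _ _).trans ?_
  exact mul_le_mul (Real.sqrt_le_sqrt (hw.shift k S)) (Real.sqrt_le_sqrt (hf S))
    (Real.sqrt_nonneg _) (Real.sqrt_nonneg _)

lemma nlB_le {C D : ℝ} {w f : K2 → ℂ} (hw : LB C w) (hf : LB D f) {k : K2} {S : Finset K2}
    {c : ℝ} (hc : 0 ≤ c) (hS : ∀ l ∈ S, |cf k l| ≤ c) :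
    ‖nlB S w f k‖ ≤ c * (Real.sqrt C * Real.sqrt D) := by
  unfold nlB
  refine (norm_sum_le _ _).trans ?_
  calc ∑ l ∈ S, ‖(cf k l : ℂ) * w (k - l) * f l‖ ≤ ∑ l ∈ S, c * (‖w (k - l)‖ * ‖f l‖) := by
        refine Finset.sum_le_sum fun l hl => ?_
        rw [norm_mul, norm_mul, Complex.norm_real, Real.norm_eq_abs, mul_assoc]
        exact mul_le_mul_of_nonneg_right (hS l hl) (by positivity)
    _ = c * ∑ l ∈ S, ‖w (k - l)‖ * ‖f l‖ := by rw [Finset.mul_sum]
    _ ≤ _ := mul_le_mul_of_nonneg_left (sum_mul_le hw hf k S) hc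

/-- The transport term. -/
noncomputable def nlI (w f : K2 → ℂ) (k : K2) : ℂ := ∑' l, (cf k l : ℂ) * w (k - l) * f l

lemma summable_nlI {C D : ℝ} {w f : K2 → ℂ} (hw : LB C w) (hf : LB D f) (k : K2) :
    Summable fun l => (cf k l : ℂ) * w (k - l) * f l := by
  refine Summable.of_norm ?_
  refine summable_of_sum_le (fun _ => norm_nonneg _) (c := ln k * (Real.sqrt C * Real.sqrt D))
    fun S => ?_
  calc ∑ l ∈ S, ‖(cf k l : ℂ) * w (k - l) * f l‖
      ≤ ∑ l ∈ S, ln k * (‖w (k - l)‖ * ‖f l‖) := by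
        refine Finset.sum_le_sum fun l _ => ?_
        rw [norm_mul, norm_mul, Complex.norm_real, Real.norm_eq_abs, mul_assoc]
        exact mul_le_mul_of_nonneg_right (abs_cf_le k l) (by positivity)
    _ = ln k * ∑ l ∈ S, ‖w (k - l)‖ * ‖f l‖ := by rw [Finset.mul_sum]
    _ ≤ _ := mul_le_mul_of_nonneg_left (sum_mul_le hw hf k S) (ln_nonneg k)

/-- The frequencies at distance less than `M`, up to a constant. -/
noncomputable def SM (k : K2) (M : ℕ) : Finset K2 :=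
  ((Finset.Icc (-(M : ℤ)) M) ×ˢ (Finset.Icc (-(M : ℤ)) M)).image fun j => k - j

lemma le_ln_of_notMem {k l : K2} {M : ℕ} (h : l ∉ SM k M) : (M : ℝ) ≤ ln (k - l) := by
  unfold ln
  refine Real.le_sqrt_of_sq_le ?_
  by_contra hcon
  rw [not_le] at hcon
  refine h (Finset.mem_image.2 ⟨k - l, ?_, by abel⟩)
  have hcon' : n2 (k - l) < (M : ℤ) ^ 2 := by exact_mod_cast hcon
  unfold n2 at hcon'
  have h1 : |(k - l).1| ≤ M := by
    refine abs_le_of_sq_le_sq (by nlinarith [sq_nonneg (k - l).2]) (by positivity)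
  have h2 : |(k - l).2| ≤ M := by
    refine abs_le_of_sq_le_sq (by nlinarith [sq_nonneg (k - l).1]) (by positivity)
  rw [Finset.mem_product, Finset.mem_Icc, Finset.mem_Icc]
  exact ⟨abs_le.1 h1, abs_le.1 h2⟩

lemma abs_cf_le_of_notMem {k l : K2} {M : ℕ} (hM : 0 < M) (h : l ∉ SM k M) :
    |cf k l| ≤ ln k / M := by
  have h1 := le_ln_of_notMem h
  have hM' : (0 : ℝ) < M := by exact_mod_cast hM
  rw [le_div_iff₀ hM']
  refine le_trans ?_ (abs_cf_mul k l)
  exact mul_le_mul_of_nonneg_left h1 (abs_nonneg _)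

/-- The part of the sum over a finite set near the frequency. -/
lemma nlB_sdiff {C D : ℝ} {w f : K2 → ℂ} (hw : LB C w) (hf : LB D f) {k : K2} {S : Finset K2}
    (hfS : ∀ l ∉ S, f l = 0) {M : ℕ} (hM : 0 < M) :
    ‖nlB S w f k - nlB (SM k M) w f k‖ ≤ ln k / M * (Real.sqrt C * Real.sqrt D) := by
  classical
  have h1 : nlB (SM k M) w f k = nlB (S ∩ SM k M) w f k := by
    unfold nlB
    symm
    refine Finset.sum_subset Finset.inter_subset_right fun l hl hl' => ?_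
    have : l ∉ S := fun h => hl' (Finset.mem_inter.2 ⟨h, hl⟩)
    rw [hfS l this, mul_zero]
  have h2 : nlB S w f k = nlB (S ∩ SM k M) w f k + nlB (S \ SM k M) w f k := by
    unfold nlB
    rw [add_comm, ← Finset.sdiff_inter_self_left]
    exact (Finset.sum_sdiff Finset.inter_subset_left).symm
  rw [h1, h2, add_sub_cancel_left]
  refine nlB_le hw hf (div_nonneg (ln_nonneg k) (Nat.cast_nonneg M)) fun l hl => ?_
  exact abs_cf_le_of_notMem hM (Finset.mem_sdiff.1 hl).2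

lemma nlI_sub {C D : ℝ} {w f : K2 → ℂ} (hw : LB C w) (hf : LB D f) {k : K2}
    {M : ℕ} (hM : 0 < M) :
    ‖nlI w f k - nlB (SM k M) w f k‖ ≤ ln k / M * (Real.sqrt C * Real.sqrt D) := by
  classical
  have h1 : Tendsto (fun S : Finset K2 => ‖nlB S w f k - nlB (SM k M) w f k‖) atTop
      (𝓝 ‖nlI w f k - nlB (SM k M) w f k‖) :=
    (((summable_nlI hw hf k).hasSum).sub_const _).norm
  refine le_of_tendsto h1 ?_
  filter_upwards [eventually_ge_atTop (SM k M)] with S hS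
  have h2 : nlB S w f k = nlB (SM k M) w f k + nlB (S \ SM k M) w f k := by
    unfold nlB
    rw [add_comm]
    exact (Finset.sum_sdiff hS).symm
  rw [h2, add_sub_cancel_left]
  refine nlB_le hw hf (div_nonneg (ln_nonneg k) (Nat.cast_nonneg M)) fun l hl => ?_
  exact abs_cf_le_of_notMem hM (Finset.mem_sdiff.1 hl).2

/-- The limit of the transport terms. -/
theorem tendsto_nlB {F : Filter ℕ} {C D : ℝ} {wn fn : ℕ → K2 → ℂ} {w f : K2 → ℂ}
    {Bn : ℕ → Finset K2} (hwn : ∀ᶠ n in F, LB C (wn n)) (hfn : ∀ᶠ n in F, LB D (fn n))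
    (hs : ∀ n, ∀ l ∉ Bn n, fn n l = 0) (hw : LB C w) (hf : LB D f)
    (h1 : ∀ l, Tendsto (fun n => wn n l) F (𝓝 (w l)))
    (h2 : ∀ l, Tendsto (fun n => fn n l) F (𝓝 (f l))) (k : K2) :
    Tendsto (fun n => nlB (Bn n) (wn n) (fn n) k) F (𝓝 (nlI w f k)) := by
  rw [Metric.tendsto_nhds]
  intro ε hε
  have hE : 0 ≤ ln k * (Real.sqrt C * Real.sqrt D) := by
    have := ln_nonneg k
    positivity
  obtain ⟨M, hM⟩ := exists_nat_gt (3 * (ln k * (Real.sqrt C * Real.sqrt D)) / ε)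
  have hM0 : (0 : ℝ) < M := lt_of_le_of_lt (by positivity) hM
  have hM1 : 0 < M := by exact_mod_cast hM0
  have hb : ln k / M * (Real.sqrt C * Real.sqrt D) < ε / 3 := by
    rw [div_lt_iff₀ hε] at hM
    rw [div_mul_eq_mul_div, div_lt_iff₀ hM0]
    linarith
  have h3 : Tendsto (fun n => nlB (SM k M) (wn n) (fn n) k) F (𝓝 (nlB (SM k M) w f k)) := by
    unfold nlB
    exact tendsto_finsetSum _ fun l _ => ((h1 (k - l)).const_mul _).mul (h2 l)
  rw [Metric.tendsto_nhds] at h3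
  filter_upwards [h3 (ε / 3) (by positivity), hwn, hfn] with n hn hn1 hn2
  have h4 := nlB_sdiff hn1 hn2 (k := k) (hs n) hM1
  have h5 := nlI_sub hw hf (k := k) hM1
  rw [dist_eq_norm] at hn ⊢
  have h6 : nlB (Bn n) (wn n) (fn n) k - nlI w f k
      = (nlB (Bn n) (wn n) (fn n) k - nlB (SM k M) (wn n) (fn n) k)
        + (nlB (SM k M) (wn n) (fn n) k - nlB (SM k M) w f k)
        - (nlI w f k - nlB (SM k M) w f k) := by ring
  rw [h6]
  refine lt_of_le_of_lt ((norm_sub_le _ _).trans (add_le_add_left (norm_add_le _ _) _)) ?_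
  linarith

end Pool.Agent.R211.BQ
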