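import Pool.Agent.R211.BQ.Defs
import Pool.Agent.R211.BQ.Lim

/-!
Real square integrable functions on the torus and their Fourier coefficients.
-/

set_option autoImplicit false

open Set Filter Topology MeasureTheory
open scoped ComplexConjugate ENNReal

namespace Pool.Agent.R211.BQ

/-- The space of classes of real square integrable functions on the torus. -/
noncomputable abbrev L2 := Lp ℝ 2 mu

/-- The Fourier coefficients of a complex function. -/
noncomputable def cc (F : T2 → ℂ) (k : K2) : ℂ := ∫ y, F y * conj (ex k y) ∂mu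

/-- The frequencies as functions. -/
def idx : K2 ≃ (Fin 2 → ℤ) where
  toFun k := ![k.1, k.2]
  invFun v := (v 0, v 1)
  left_inv k := by simp
  right_inv v := by
    funext i
    fin_cases i <;> rfl

lemma mF_idx (k : K2) (y : T2) : UnitAddTorus.mFourier (idx k) y = ex k y := by
  unfold ex
  show ∏ i : Fin 2, fourier ((idx k) i) (y i) = _
  rw [Fin.prod_univ_two]
  rfl

lemma mFn_idx (k : K2) (y : T2) : UnitAddTorus.mFourier (-idx k) y = conj (ex k y) := by
  rw [UnitAddTorus.mFourier_neg, mF_idx]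

section basis

noncomputable local instance : MeasureSpace UnitAddCircle := ⟨AddCircle.haarAddCircle⟩

lemma bridge_exists (a : K2 → ℂ) (h : Summable fun k => ‖a k‖ ^ 2) :
    ∃ F : Lp ℂ 2 (volume : Measure (UnitAddTorus (Fin 2))),
      ∀ k, ∫ y, F y * conj (ex k y) = a k := by
  have hmem : Memℓp (fun v : Fin 2 → ℤ => a (idx.symm v)) 2 := by
    refine memℓp_gen ?_
    have h2 : Summable fun v : Fin 2 → ℤ => ‖a (idx.symm v)‖ ^ 2 :=
      (idx.symm.summable_iff (f := fun k => ‖a k‖ ^ 2)).2 h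
    refine h2.congr fun v => ?_
    rw [ENNReal.toReal_ofNat]
    norm_cast
  refine ⟨UnitAddTorus.mFourierBasis.repr.symm ⟨_, hmem⟩, fun k => ?_⟩
  have h1 := UnitAddTorus.mFourierBasis_repr
    (UnitAddTorus.mFourierBasis.repr.symm ⟨_, hmem⟩) (idx k)
  rw [LinearIsometryEquiv.apply_symm_apply] at h1
  have h2 : a k = a (idx.symm (idx k)) := by rw [Equiv.symm_apply_apply]
  rw [h2]
  refine Eq.trans ?_ h1.symm
  unfold UnitAddTorus.mFourierCoeff
  refine integral_congr_ae (Filter.Eventually.of_forall fun y => ?_)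
  simp only [smul_eq_mul]
  rw [mFn_idx, mul_comm]

lemma bridge_parseval (F G : Lp ℂ 2 (volume : Measure (UnitAddTorus (Fin 2)))) :
    HasSum (fun k : K2 => conj (∫ y, F y * conj (ex k y)) * ∫ y, G y * conj (ex k y))
      (∫ y, conj (F y) * G y) := by
  have h := UnitAddTorus.hasSum_prod_mFourierCoeff F G
  rw [← idx.hasSum_iff] at h
  refine h.congr_fun fun k => ?_
  have h2 : ∀ F : Lp ℂ 2 (volume : Measure (UnitAddTorus (Fin 2))),
      ∫ y, F y * conj (ex k y) = UnitAddTorus.mFourierCoeff F (idx k) := by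
    intro F
    unfold UnitAddTorus.mFourierCoeff
    refine integral_congr_ae (Filter.Eventually.of_forall fun y => ?_)
    simp only [smul_eq_mul]
    rw [mFn_idx, mul_comm]
  simp only [Function.comp_def]
  rw [h2, h2]

lemma bridge_prob : IsProbabilityMeasure (volume : Measure (UnitAddTorus (Fin 2))) := by
  have : IsProbabilityMeasure (volume : Measure UnitAddCircle) :=
    inferInstanceAs (IsProbabilityMeasure AddCircle.haarAddCircle)
  infer_instance

end basis

instance : IsProbabilityMeasure mu := bridge_prob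

lemma cx_exists (a : K2 → ℂ) (h : Summable fun k => ‖a k‖ ^ 2) :
    ∃ F : Lp ℂ 2 mu, ∀ k, cc F k = a k := bridge_exists a h

lemma cx_parseval (F G : Lp ℂ 2 mu) :
    HasSum (fun k : K2 => conj (cc F k) * cc G k) (∫ y, conj (F y) * G y ∂mu) :=
  bridge_parseval F G

lemma norm_ex (k : K2) (y : T2) : ‖ex k y‖ = 1 := by
  unfold ex
  rw [norm_mul, fourier_apply, fourier_apply, Circle.norm_coe, Circle.norm_coe, one_mul]

lemma ex_neg (k : K2) (y : T2) : ex (-k) y = conj (ex k y) := by
  rw [← mF_idx, ← mFn_idx]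
  rfl

lemma ex_add (k l : K2) (y : T2) : ex (k + l) y = ex k y * ex l y := by
  unfold ex
  rw [Prod.fst_add, Prod.snd_add, fourier_add, fourier_add]
  ring

lemma continuous_ex (k : K2) : Continuous (ex k) := by
  unfold ex
  fun_prop

lemma integrable_mul_ex {F : T2 → ℂ} (hF : Integrable F mu) (k : K2) :
    Integrable (fun y => F y * conj (ex k y)) mu := by
  refine hF.mul_bdd (c := 1) ?_ ?_
  · exact (Complex.continuous_conj.comp (continuous_ex k)).aestronglyMeasurable
  · refine Filter.Eventually.of_forall fun y => ?_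
    rw [RCLike.norm_conj, norm_ex]

lemma lp_integrable (f : L2) : Integrable f mu := (Lp.memLp f).integrable (by norm_num)

lemma integrable_coe (f : L2) : Integrable (fun y => (f y : ℂ)) mu := (lp_integrable f).ofReal

lemma fc_neg (f : T2 → ℝ) (k : K2) : fc f (-k) = conj (fc f k) := by
  unfold fc
  rw [← integral_conj]
  refine integral_congr_ae (Filter.Eventually.of_forall fun y => ?_)
  simp only [map_mul, Complex.conj_conj, Complex.conj_ofReal]
  rw [ex_neg, Complex.conj_conj]

lemma exists_real {C : ℝ} {a : K2 → ℂ} (ha : ∀ k, conj (a k) = a (-k)) (hC : LB C a) :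
    ∃ f : L2, ∀ k, fc f k = a k := by
  obtain ⟨F, hF⟩ := cx_exists a hC.summable
  refine ⟨Complex.reCLM.compLp F, fun k => ?_⟩
  have h2 : Integrable F mu := (Lp.memLp F).integrable (by norm_num)
  have h3 : Integrable (fun y => conj (F y)) mu :=
    Complex.conjCLE.toContinuousLinearMap.integrable_comp h2
  have hk : ∫ y, F y * conj (ex k y) ∂mu = a k := hF k
  have hnk : ∫ y, conj (F y) * conj (ex k y) ∂mu = a k := by
    have h1 : ∫ y, conj (F y * conj (ex (-k) y)) ∂mu = conj (a (-k)) := by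
      rw [integral_conj]
      exact congrArg conj (hF (-k))
    rw [ha, neg_neg] at h1
    rw [← h1]
    refine integral_congr_ae (Filter.Eventually.of_forall fun y => ?_)
    simp only [map_mul, Complex.conj_conj]
    rw [ex_neg]
  unfold fc
  have h4 : ∀ᵐ y ∂mu, (((Complex.reCLM.compLp F : L2) y : ℝ) : ℂ) * conj (ex k y)
      = (1 / 2 : ℂ) * (F y * conj (ex k y)) + (1 / 2 : ℂ) * (conj (F y) * conj (ex k y)) := by
    filter_upwards [Complex.reCLM.coeFn_compLp F] with y hy
    rw [hy]
    show ((F y).re : ℂ) * conj (ex k y) = _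
    rw [Complex.re_eq_add_conj]
    ring
  rw [integral_congr_ae h4, integral_add ((integrable_mul_ex h2 k).const_mul _)
    ((integrable_mul_ex h3 k).const_mul _), integral_const_mul, integral_const_mul, hk, hnk]
  ring

/-- The complexification. -/
noncomputable def cx (f : L2) : Lp ℂ 2 mu := Complex.ofRealCLM.compLp f

lemma cx_ae (f : L2) : ∀ᵐ y ∂mu, cx f y = (f y : ℂ) := Complex.ofRealCLM.coeFn_compLp f

lemma cc_cx (f : L2) (k : K2) : cc (cx f) k = fc f k := by
  unfold cc fc
  refine integral_congr_ae ?_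
  filter_upwards [cx_ae f] with y hy
  rw [hy]

/-- Parseval for real functions. -/
lemma parseval (f g : L2) : HasSum (fun k : K2 => conj (fc f k) * fc g k)
    ((∫ y, f y * g y ∂mu : ℝ) : ℂ) := by
  have h := cx_parseval (cx f) (cx g)
  simp only [cc_cx] at h
  convert h using 1
  rw [← integral_complex_ofReal]
  refine integral_congr_ae ?_
  filter_upwards [cx_ae f, cx_ae g] with y hf hg
  rw [hf, hg, Complex.conj_ofReal]
  push_cast
  rfl

lemma norm_sq_eq (f : L2) : ‖f‖ ^ 2 = ∫ y, f y * f y ∂mu := by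
  have h1 := real_inner_self_eq_norm_sq f
  rw [← h1, MeasureTheory.L2.inner_def]
  refine integral_congr_ae (Filter.Eventually.of_forall fun y => ?_)
  simp only [RCLike.inner_apply, conj_trivial]

lemma hasSum_norm (f : L2) : HasSum (fun k : K2 => ‖fc f k‖ ^ 2) (‖f‖ ^ 2) := by
  have h := parseval f f
  rw [← norm_sq_eq] at h
  have h1 := Complex.hasSum_re h
  rw [Complex.ofReal_re] at h1
  refine h1.congr_fun fun k => ?_
  rw [Complex.conj_mul']
  norm_cast

lemma LB_fc (f : L2) : LB (‖f‖ ^ 2) (fc f) := fun S => by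
  have h := hasSum_norm f
  exact sum_le_hasSum S (fun _ _ => sq_nonneg _) h

lemma norm_le_of_LB {C : ℝ} {f : L2} (h : LB C (fc f)) : ‖f‖ ^ 2 ≤ C :=
  hasSum_le_of_sum_le (hasSum_norm f) h

lemma fc_sub (f g : L2) (k : K2) : fc (f - g : L2) k = fc f k - fc g k := by
  unfold fc
  have h1 := integrable_mul_ex (integrable_coe f) k
  have h2 := integrable_mul_ex (integrable_coe g) k
  rw [← integral_sub h1 h2]
  refine integral_congr_ae ?_
  filter_upwards [Lp.coeFn_sub f g] with y hy
  rw [hy, Pi.sub_apply]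
  push_cast
  ring

lemma eq_of_fc {f g : L2} (h : ∀ k, fc f k = fc g k) : f = g := by
  have h1 : LB 0 (fc (f - g : L2)) := by
    intro S
    refine le_of_eq (Finset.sum_eq_zero fun k _ => ?_)
    rw [fc_sub, h, sub_self, norm_zero]
    norm_num
  have h2 := norm_le_of_LB h1
  have h3 : ‖f - g‖ = 0 := by nlinarith [norm_nonneg (f - g)]
  exact sub_eq_zero.1 (norm_eq_zero.1 h3)

/-- The coefficients of a product. -/
lemma fc_mul (f g : L2) (k : K2) :
    HasSum (fun l : K2 => fc f (k - l) * fc g l) (fc (fun y => f y * g y) k) := by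
  -- the function `f · exp(-i k x)`, conjugated
  have hmem : MemLp (fun y => (f y : ℂ) * ex k y) 2 mu := by
    have h1 : MemLp (fun y => (f y : ℂ)) 2 mu := (Lp.memLp f).ofReal
    refine h1.of_le ?_ (Filter.Eventually.of_forall fun y => ?_)
    · exact h1.1.mul (continuous_ex k).aestronglyMeasurable
    · rw [norm_mul, norm_ex, mul_one]
  have h := cx_parseval (hmem.toLp _) (cx g)
  have e1 : ∀ l, cc (hmem.toLp _) l = conj (fc f (k - l)) := by
    intro l
    unfold cc fc
    rw [← integral_conj]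
    refine integral_congr_ae ?_
    filter_upwards [hmem.coeFn_toLp] with y hy
    rw [hy]
    simp only [map_mul, Complex.conj_conj, Complex.conj_ofReal]
    rw [sub_eq_add_neg, ex_add, ex_neg]
    ring
  have e2 : ∫ y, conj ((hmem.toLp _ : Lp ℂ 2 mu) y) * cx g y ∂mu
      = fc (fun y => f y * g y) k := by
    unfold fc
    refine integral_congr_ae ?_
    filter_upwards [hmem.coeFn_toLp, cx_ae g] with y hy hg
    rw [hy, hg]
    simp only [map_mul, Complex.conj_ofReal]
    push_cast
    ring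
  rw [e2] at h
  refine h.congr_fun fun l => ?_
  rw [e1, Complex.conj_conj, cc_cx]

/-- Weak continuity from the continuity of the coefficients. -/
lemma weak_cont {C : ℝ} {f : ℝ → L2} (hf : ∀ k, Continuous fun t => fc (f t) k)
    (hC : ∀ t, LB C (fc (f t))) (φ : L2) : Continuous fun t => ∫ y, f t y * φ y ∂mu := by
  have hC0 : 0 ≤ C := (hC 0).nonneg
  have h1 : Continuous fun t => ((∫ y, f t y * φ y ∂mu : ℝ) : ℂ) := by
    have h2 : TendstoUniformly (fun (S : Finset K2) (t : ℝ) => ∑ k ∈ S, conj (fc (f t) k) * fc φ k)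
        (fun t => ((∫ y, f t y * φ y ∂mu : ℝ) : ℂ)) atTop := by
      rw [Metric.tendstoUniformly_iff]
      intro ε hε
      have h3 : Tendsto (fun S : Finset K2 => ∑ k ∈ S, ‖fc φ k‖ ^ 2) atTop (𝓝 (‖φ‖ ^ 2)) :=
        hasSum_norm φ
      have hδ : 0 < (ε / 2) ^ 2 / (C + 1) := by positivity
      have h4 := h3.eventually (lt_mem_nhds
        (show ‖φ‖ ^ 2 - (ε / 2) ^ 2 / (C + 1) < ‖φ‖ ^ 2 by linarith))
      filter_upwards [h4] with S hS t
      have h5 := parseval (f t) φ
      have h6 : Tendsto (fun S' : Finset K2 => ‖∑ k ∈ S', conj (fc (f t) k) * fc φ k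
          - ∑ k ∈ S, conj (fc (f t) k) * fc φ k‖) atTop
          (𝓝 ‖((∫ y, f t y * φ y ∂mu : ℝ) : ℂ) - ∑ k ∈ S, conj (fc (f t) k) * fc φ k‖) :=
        (Tendsto.sub_const h5 _).norm
      rw [dist_eq_norm]
      refine lt_of_le_of_lt (le_of_tendsto h6 (b := ε / 2) ?_) (by linarith)
      filter_upwards [eventually_ge_atTop S] with S' hS'
      classical
      rw [← Finset.sum_sdiff hS', add_sub_cancel_right]
      refine (norm_sum_le _ _).trans ?_
      have h7 : ∑ k ∈ S' \ S, ‖conj (fc (f t) k) * fc φ k‖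
          ≤ Real.sqrt (∑ k ∈ S' \ S, ‖fc (f t) k‖ ^ 2)
            * Real.sqrt (∑ k ∈ S' \ S, ‖fc φ k‖ ^ 2) := by
        refine le_trans (le_of_eq ?_) (Real.sum_mul_le_sqrt_mul_sqrt (S' \ S) _ _)
        refine Finset.sum_congr rfl fun k _ => ?_
        rw [norm_mul, RCLike.norm_conj]
      have h8 : ∑ k ∈ S' \ S, ‖fc φ k‖ ^ 2 ≤ (ε / 2) ^ 2 / (C + 1) := by
        have h9 := LB_fc φ S'
        rw [← Finset.sum_sdiff hS'] at h9
        linarith
      calc _ ≤ Real.sqrt C * Real.sqrt ((ε / 2) ^ 2 / (C + 1)) :=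
            h7.trans (mul_le_mul (Real.sqrt_le_sqrt (hC t _)) (Real.sqrt_le_sqrt h8)
              (Real.sqrt_nonneg _) (Real.sqrt_nonneg _))
        _ = Real.sqrt (C * ((ε / 2) ^ 2 / (C + 1))) := (Real.sqrt_mul hC0 _).symm
        _ ≤ Real.sqrt ((ε / 2) ^ 2) := by
            refine Real.sqrt_le_sqrt ?_
            rw [mul_div_assoc', div_le_iff₀ (by linarith)]
            nlinarith [sq_nonneg (ε / 2)]
        _ = ε / 2 := Real.sqrt_sq (by linarith)
    refine h2.continuous (Filter.Frequently.of_forall fun S => ?_)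
    exact continuous_finsetSum _ fun k _ =>
      ((Complex.continuous_conj.comp (hf k)).mul continuous_const)
  have := Complex.continuous_re.comp h1
  exact this

/-! ### Versions for functions -/

lemma fc_congr {f g : T2 → ℝ} (h : f =ᵐ[mu] g) (k : K2) : fc f k = fc g k := by
  unfold fc
  refine integral_congr_ae ?_
  filter_upwards [h] with y hy
  rw [hy]

lemma exists_real' {C : ℝ} {a : K2 → ℂ} (ha : ∀ k, conj (a k) = a (-k)) (hC : LB C a) :
    ∃ f : T2 → ℝ, MemLp f 2 mu ∧ ∀ k, fc f k = a k := by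
  obtain ⟨f, hf⟩ := exists_real ha hC
  exact ⟨f, Lp.memLp f, hf⟩

lemma fc_toLp {f : T2 → ℝ} (hf : MemLp f 2 mu) (k : K2) : fc (hf.toLp f) k = fc f k :=
  fc_congr hf.coeFn_toLp k

lemma norm_toLp_sq {f : T2 → ℝ} (hf : MemLp f 2 mu) : ‖hf.toLp f‖ ^ 2 = ∫ y, f y ^ 2 ∂mu := by
  rw [norm_sq_eq]
  refine integral_congr_ae ?_
  filter_upwards [hf.coeFn_toLp] with y hy
  rw [hy]
  ring

lemma LB_fc' {f : T2 → ℝ} (hf : MemLp f 2 mu) : LB (∫ y, f y ^ 2 ∂mu) (fc f) := by
  have h1 := LB_fc (hf.toLp f)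
  rw [norm_toLp_sq] at h1
  have h2 : fc (hf.toLp f) = fc f := funext (fc_toLp hf)
  rwa [h2] at h1

lemma norm_le_of_LB' {C : ℝ} {f : T2 → ℝ} (hf : MemLp f 2 mu) (h : LB C (fc f)) :
    ∫ y, f y ^ 2 ∂mu ≤ C := by
  rw [← norm_toLp_sq hf]
  refine norm_le_of_LB ?_
  have h2 : fc (hf.toLp f) = fc f := funext (fc_toLp hf)
  rwa [h2]

lemma pr_hasSum {f g : T2 → ℝ} (hf : MemLp f 2 mu) (hg : MemLp g 2 mu) (k : K2) :
    HasSum (fun l : K2 => fc f (k - l) * fc g l) (pr f g k) := by
  have h1 := fc_mul (hf.toLp f) (hg.toLp g) k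
  simp only [fc_toLp] at h1
  have h2 : fc (fun y => (hf.toLp f : T2 → ℝ) y * (hg.toLp g : T2 → ℝ) y) k = pr f g k := by
    unfold pr
    refine fc_congr ?_ k
    filter_upwards [hf.coeFn_toLp, hg.coeFn_toLp] with y h3 h4
    rw [h3, h4]
  rwa [h2] at h1

lemma weak_cont' {C : ℝ} {f : ℝ → T2 → ℝ} (hm : ∀ t, MemLp (f t) 2 mu)
    (hf : ∀ k, Continuous fun t => fc (f t) k) (hC : ∀ t, LB C (fc (f t))) {φ : T2 → ℝ}
    (hφ : MemLp φ 2 mu) : Continuous fun t => ∫ y, f t y * φ y ∂mu := by
  have h1 := weak_cont (f := fun t => (hm t).toLp (f t)) (C := C) (fun k => by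
    simp only [fc_toLp]
    exact hf k) (fun t => by
      have h2 : fc ((hm t).toLp (f t)) = fc (f t) := funext (fc_toLp (hm t))
      rw [h2]
      exact hC t) (hφ.toLp φ)
  refine h1.congr fun t => integral_congr_ae ?_
  filter_upwards [(hm t).coeFn_toLp, hφ.coeFn_toLp] with y h3 h4
  rw [h3, h4]

end Pool.Agent.R211.BQ
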