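import Pool.Agent.R211.BQ.Equi

/-!
Complete bounded trajectories with prescribed temperature at time zero: the coefficients.
-/

set_option autoImplicit false

open Set Filter Topology MeasureTheory
open scoped ComplexConjugate ENNReal NNReal ContDiff

namespace Pool.Agent.R211.BQ

lemma LB.of_support {C : ℝ} {a : K2 → ℂ} {B : Finset K2} (h : ∀ k ∉ B, a k = 0)
    (hC : ∑ k ∈ B, ‖a k‖ ^ 2 ≤ C) : LB C a := by
  classical
  intro S
  calc ∑ k ∈ S, ‖a k‖ ^ 2 = ∑ k ∈ S ∩ B, ‖a k‖ ^ 2 := by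
        symm
        refine Finset.sum_subset Finset.inter_subset_left fun k hk hk' => ?_
        have : k ∉ B := fun h1 => hk' (Finset.mem_inter.2 ⟨hk, h1⟩)
        rw [h k this, norm_zero]
        norm_num
    _ ≤ ∑ k ∈ B, ‖a k‖ ^ 2 :=
        Finset.sum_le_sum_of_subset_of_nonneg Finset.inter_subset_right fun _ _ _ => sq_nonneg _
    _ ≤ C := hC

/-- The boxes. -/
noncomputable def Bx (n : ℕ) : Finset K2 :=
  ((Finset.Icc (-(n : ℤ)) n) ×ˢ (Finset.Icc (-(n : ℤ)) n)).erase 0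

lemma zero_notMem_Bx (n : ℕ) : (0 : K2) ∉ Bx n := by
  unfold Bx
  simp

lemma neg_mem_Bx {n : ℕ} {k : K2} (hk : k ∈ Bx n) : -k ∈ Bx n := by
  unfold Bx at hk ⊢
  rw [Finset.mem_erase, Finset.mem_product, Finset.mem_Icc, Finset.mem_Icc] at hk ⊢
  refine ⟨neg_ne_zero.2 hk.1, ?_⟩
  simp only [Prod.fst_neg, Prod.snd_neg]
  obtain ⟨-, ⟨h1, h2⟩, h3, h4⟩ := hk
  refine ⟨⟨?_, ?_⟩, ?_, ?_⟩ <;> omega

lemma mem_Bx {n : ℕ} {k : K2} (hk : k ≠ 0) (h : k.1.natAbs + k.2.natAbs ≤ n) : k ∈ Bx n := by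
  unfold Bx
  rw [Finset.mem_erase, Finset.mem_product, Finset.mem_Icc, Finset.mem_Icc]
  refine ⟨hk, ⟨?_, ?_⟩, ?_, ?_⟩ <;> omega

/-- The right hand side of the equation for the vorticity. -/
noncomputable def rI (ν g : ℝ) (w f : K2 → ℂ) (k : K2) : ℂ :=
  -(nlI w w k) - ((ν * n2 k : ℝ) : ℂ) * w k + Complex.I * ((g * k.1 : ℝ) : ℂ) * f k

lemma nlI_zero (w f : K2 → ℂ) : nlI w f 0 = 0 := by
  unfold nlI
  have : ∀ l, (cf 0 l : ℂ) * w (0 - l) * f l = 0 := by
    intro l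
    have : cf 0 l = 0 := by
      unfold cf cr
      simp
    rw [this]
    simp
  simp only [this, tsum_zero]

lemma rI_zero (ν g : ℝ) (w f : K2 → ℂ) : rI ν g w f 0 = 0 := by
  unfold rI
  rw [nlI_zero]
  have : n2 0 = 0 := by unfold n2; simp
  rw [this]
  simp

lemma hasDerivAt_of_quad {f : ℝ → ℂ} {f' : ℂ} {s : ℝ}
    (h : ∀ ε > 0, ∃ δ > 0, ∀ t, |t - s| ≤ δ → ‖f t - f s - ((t - s : ℝ) : ℂ) * f'‖ ≤ ε * |t - s|) :
    HasDerivAt f f' s := by
  rw [hasDerivAt_iff_isLittleO, Asymptotics.isLittleO_iff]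
  intro c hc
  obtain ⟨δ, hδ, h1⟩ := h c hc
  have h2 : ∀ᶠ t in 𝓝 s, |t - s| ≤ δ := by
    filter_upwards [Metric.closedBall_mem_nhds s hδ] with t ht
    rwa [Metric.mem_closedBall, Real.dist_eq] at ht
  filter_upwards [h2] with t ht
  have := h1 t ht
  rw [Real.norm_eq_abs, Complex.real_smul]
  exact this

/-- A complete bounded trajectory, in terms of the coefficients of vorticity and temperature. -/
structure CT (ν g C D : ℝ) (W Θ : ℝ → K2 → ℂ) : Prop where
  cjW : ∀ t k, conj (W t k) = W t (-k)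
  cjΘ : ∀ t k, conj (Θ t k) = Θ t (-k)
  zW : ∀ t, W t 0 = 0
  zΘ : ∀ t, Θ t 0 = 0
  bW : ∀ t, LB C (W t)
  bΘ : ∀ t, LB D (Θ t)
  derW : ∀ t k, HasDerivAt (fun s => W s k) (rI ν g (W t) (Θ t) k) t
  derΘ : ∀ t k, HasDerivAt (fun s => Θ s k) (-(nlI (W t) (Θ t) k)) t

theorem exists_complete {ν g D : ℝ} (hν : 0 < ν) {y : K2 → ℂ} (hy : ∀ k, conj (y k) = y (-k))
    (hy0 : y 0 = 0) (hD : LB D y) :
    ∃ W Θ : ℝ → K2 → ℂ, CT ν g (g ^ 2 * D / ν ^ 2) D W Θ ∧ Θ 0 = y := by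
  classical
  set C : ℝ := g ^ 2 * D / ν ^ 2 with hC
  have hD0 : 0 ≤ D := hD.nonneg
  -- the Galerkin solutions
  have hex : ∀ n : ℕ, ∃ W Θ : ℝ → K2 → ℂ, GB (Bx n) ν g C D (2 * n) W Θ ∧
      ∀ k ∈ Bx n, Θ n k = y k := by
    intro n
    obtain ⟨W, Θ, h1, h2, h3, h4⟩ := exists_final (B := Bx n) (fun k hk => neg_mem_Bx hk)
      (zero_notMem_Bx n) (g := g) hν (T := n) (T2 := 2 * n) (Nat.cast_nonneg n) (by
        have : (0 : ℝ) ≤ n := Nat.cast_nonneg n
        linarith) hy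
    refine ⟨W, Θ, ⟨h1, fun t ht => ?_, fun t ht => ?_⟩, h2⟩
    · refine LB.of_support (h1.spW t) ((h4 t ht).trans ?_)
      rw [hC]
      have := hD (Bx n)
      gcongr
    · refine LB.of_support (h1.spΘ t) ((h3 t ht).trans_le ?_)
      exact hD (Bx n)
  choose Wn Θn hGB hfin using hex
  set U : Ultrafilter ℕ := hyperfilter ℕ with hU
  have hUt : (U : Filter ℕ) ≤ atTop := Nat.hyperfilter_le_atTop
  have hevT : ∀ T : ℝ, ∀ᶠ n : ℕ in (U : Filter ℕ), T ≤ n := by
    intro T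
    refine hUt ?_
    filter_upwards [eventually_ge_atTop ⌈T⌉₊] with n hn
    have h1 : (⌈T⌉₊ : ℝ) ≤ n := by exact_mod_cast hn
    exact (Nat.le_ceil T).trans h1
  have hev : ∀ t : ℝ, ∀ᶠ n : ℕ in (U : Filter ℕ), t + n ∈ Icc (0 : ℝ) (2 * n) := by
    intro t
    filter_upwards [hevT |t|] with n hn
    have := neg_abs_le t
    have := le_abs_self t
    exact ⟨by linarith, by linarith⟩
  have hevk : ∀ k : K2, k ≠ 0 → ∀ᶠ n : ℕ in (U : Filter ℕ), k ∈ Bx n := by
    intro k hk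
    refine hUt ?_
    filter_upwards [eventually_ge_atTop (k.1.natAbs + k.2.natAbs)] with n hn
    exact mem_Bx hk hn
  have hlimW : ∀ (t : ℝ) (k : K2), ∃ z : ℂ,
      Tendsto (fun n : ℕ => Wn n (t + n) k) (U : Filter ℕ) (𝓝 z) := by
    intro t k
    have h1 : ∀ᶠ n : ℕ in (U : Filter ℕ),
        Wn n (t + n) k ∈ Metric.closedBall (0 : ℂ) (Real.sqrt C) := by
      filter_upwards [hev t] with n hn
      rw [mem_closedBall_zero_iff]
      exact ((hGB n).bW _ hn).norm_le k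
    obtain ⟨z, -, hz⟩ := (isCompact_closedBall (0 : ℂ) (Real.sqrt C)).ultrafilter_le_nhds
      (U.map fun n : ℕ => Wn n (t + n) k) (le_principal_iff.2 h1)
    exact ⟨z, hz⟩
  have hlimΘ : ∀ (t : ℝ) (k : K2), ∃ z : ℂ,
      Tendsto (fun n : ℕ => Θn n (t + n) k) (U : Filter ℕ) (𝓝 z) := by
    intro t k
    have h1 : ∀ᶠ n : ℕ in (U : Filter ℕ),
        Θn n (t + n) k ∈ Metric.closedBall (0 : ℂ) (Real.sqrt D) := by
      filter_upwards [hev t] with n hn
      rw [mem_closedBall_zero_iff]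
      exact ((hGB n).bΘ _ hn).norm_le k
    obtain ⟨z, -, hz⟩ := (isCompact_closedBall (0 : ℂ) (Real.sqrt D)).ultrafilter_le_nhds
      (U.map fun n : ℕ => Θn n (t + n) k) (le_principal_iff.2 h1)
    exact ⟨z, hz⟩
  choose W hW using hlimW
  choose Θ hΘ using hlimΘ
  have hbW : ∀ t, LB C (W t) := by
    intro t S
    have h1 : Tendsto (fun n : ℕ => ∑ k ∈ S, ‖Wn n (t + n) k‖ ^ 2) (U : Filter ℕ)
        (𝓝 (∑ k ∈ S, ‖W t k‖ ^ 2)) := tendsto_finsetSum _ fun k _ => ((hW t k).norm).pow 2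
    refine le_of_tendsto h1 ?_
    filter_upwards [hev t] with n hn
    exact (hGB n).bW _ hn S
  have hbΘ : ∀ t, LB D (Θ t) := by
    intro t S
    have h1 : Tendsto (fun n : ℕ => ∑ k ∈ S, ‖Θn n (t + n) k‖ ^ 2) (U : Filter ℕ)
        (𝓝 (∑ k ∈ S, ‖Θ t k‖ ^ 2)) := tendsto_finsetSum _ fun k _ => ((hΘ t k).norm).pow 2
    refine le_of_tendsto h1 ?_
    filter_upwards [hev t] with n hn
    exact (hGB n).bΘ _ hn S
  have hzW : ∀ t, W t 0 = 0 := by
    intro t
    refine tendsto_nhds_unique (hW t 0) ?_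
    have : (fun n : ℕ => Wn n (t + n) 0) = fun _ => 0 := by
      funext n
      exact (hGB n).spW _ _ (zero_notMem_Bx n)
    rw [this]
    exact tendsto_const_nhds
  have hzΘ : ∀ t, Θ t 0 = 0 := by
    intro t
    refine tendsto_nhds_unique (hΘ t 0) ?_
    have : (fun n : ℕ => Θn n (t + n) 0) = fun _ => 0 := by
      funext n
      exact (hGB n).spΘ _ _ (zero_notMem_Bx n)
    rw [this]
    exact tendsto_const_nhds
  have hnWW : ∀ t k, Tendsto (fun n : ℕ => nlB (Bx n) (Wn n (t + n)) (Wn n (t + n)) k)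
      (U : Filter ℕ) (𝓝 (nlI (W t) (W t) k)) := fun t k =>
    tendsto_nlB (by filter_upwards [hev t] with n hn; exact (hGB n).bW _ hn)
      (by filter_upwards [hev t] with n hn; exact (hGB n).bW _ hn)
      (fun n l hl => (hGB n).spW _ l hl) (hbW t) (hbW t) (hW t) (hW t) k
  have hnWΘ : ∀ t k, Tendsto (fun n : ℕ => nlB (Bx n) (Wn n (t + n)) (Θn n (t + n)) k)
      (U : Filter ℕ) (𝓝 (nlI (W t) (Θ t) k)) := fun t k =>
    tendsto_nlB (by filter_upwards [hev t] with n hn; exact (hGB n).bW _ hn)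
      (by filter_upwards [hev t] with n hn; exact (hGB n).bΘ _ hn)
      (fun n l hl => (hGB n).spΘ _ l hl) (hbW t) (hbΘ t) (hW t) (hΘ t) k
  refine ⟨W, Θ, ⟨fun t k => ?_, fun t k => ?_, hzW, hzΘ, hbW, hbΘ, fun s k => ?_, fun s k => ?_⟩,
    ?_⟩
  · have h1 : Tendsto (fun n : ℕ => conj (Wn n (t + n) k)) (U : Filter ℕ) (𝓝 (conj (W t k))) :=
      (Complex.continuous_conj.tendsto _).comp (hW t k)
    refine tendsto_nhds_unique h1 ((hW t (-k)).congr' ?_)
    filter_upwards [hev t] with n hn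
    exact ((hGB n).cjW _ hn k).symm
  · have h1 : Tendsto (fun n : ℕ => conj (Θn n (t + n) k)) (U : Filter ℕ) (𝓝 (conj (Θ t k))) :=
      (Complex.continuous_conj.tendsto _).comp (hΘ t k)
    refine tendsto_nhds_unique h1 ((hΘ t (-k)).congr' ?_)
    filter_upwards [hev t] with n hn
    exact ((hGB n).cjΘ _ hn k).symm
  · by_cases hk : k = 0
    · subst hk
      rw [rI_zero]
      have : (fun s => W s 0) = fun _ => 0 := funext hzW
      rw [this]
      exact hasDerivAt_const _ _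
    · refine hasDerivAt_of_quad fun ε hε => ?_
      obtain ⟨δ, hδ, he⟩ := equi_nlB C C (cW ν g C D) (cW ν g C D) k (ε := ε / 2)
        (by positivity)
      set G : ℝ := |ν * n2 k| * cW ν g C D k
        + |g * k.1| * (ln k * (Real.sqrt C * Real.sqrt D)) with hG
      have hG0 : 0 ≤ G := by
        have := cW_nonneg ν g C D k
        have := ln_nonneg k
        positivity
      refine ⟨min δ (ε / (2 * (G + 1))), by positivity, fun t ht => ?_⟩
      have h1 : Tendsto (fun n : ℕ => ‖Wn n (t + n) k - Wn n (s + n) k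
          - ((t - s : ℝ) : ℂ) * rW (Bx n) ν g (Wn n (s + n)) (Θn n (s + n)) k‖) (U : Filter ℕ)
          (𝓝 ‖W t k - W s k - ((t - s : ℝ) : ℂ) * rI ν g (W s) (Θ s) k‖) := by
        refine (((hW t k).sub (hW s k)).sub (Tendsto.const_mul _ ?_)).norm
        exact (((hnWW s k).neg).sub ((hW s k).const_mul _)).add ((hΘ s k).const_mul _)
      refine le_of_tendsto h1 ?_
      filter_upwards [hev t, hev s, hevk k hk] with n hn1 hn2 hn3
      have hder : ∀ r ∈ Icc (0 : ℝ) (2 * n), HasDerivWithinAt (fun x => Wn n x k)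
          (rW (Bx n) ν g (Wn n r) (Θn n r) k) (Icc 0 (2 * n)) r := fun r hr =>
        (hGB n).derW r hr k hn3
      have hmod : ∀ a ∈ Icc (0 : ℝ) (2 * n), ∀ b ∈ Icc (0 : ℝ) (2 * n),
          |b - a| ≤ min δ (ε / (2 * (G + 1))) →
          ‖rW (Bx n) ν g (Wn n b) (Θn n b) k - rW (Bx n) ν g (Wn n a) (Θn n a) k‖ ≤ ε := by
        intro a ha b hb hab
        have h2 := he (Bx n) (Icc 0 (2 * n)) (Wn n) (Wn n) (hGB n).bW (hGB n).bW
          (hGB n).spW (fun l s hs t ht => (hGB n).lipW l hs ht)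
          (fun l s hs t ht => (hGB n).lipW l hs ht) a ha b hb (hab.trans (min_le_left _ _))
        have h3 := (hGB n).lipW k ha hb
        have h4 := (hGB n).lipΘ k ha hb
        have e1 : rW (Bx n) ν g (Wn n b) (Θn n b) k - rW (Bx n) ν g (Wn n a) (Θn n a) k
            = -(nlB (Bx n) (Wn n b) (Wn n b) k - nlB (Bx n) (Wn n a) (Wn n a) k)
              - ((ν * n2 k : ℝ) : ℂ) * (Wn n b k - Wn n a k)
              + Complex.I * ((g * k.1 : ℝ) : ℂ) * (Θn n b k - Θn n a k) := by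
          unfold rW
          ring
        rw [e1]
        have h5 : ‖((ν * n2 k : ℝ) : ℂ) * (Wn n b k - Wn n a k)‖
            ≤ |ν * n2 k| * (cW ν g C D k * |b - a|) := by
          rw [norm_mul, Complex.norm_real, Real.norm_eq_abs]
          exact mul_le_mul_of_nonneg_left h3 (abs_nonneg _)
        have h6 : ‖Complex.I * ((g * k.1 : ℝ) : ℂ) * (Θn n b k - Θn n a k)‖
            ≤ |g * k.1| * (ln k * (Real.sqrt C * Real.sqrt D) * |b - a|) := by
          rw [norm_mul, norm_mul, Complex.norm_I, one_mul, Complex.norm_real, Real.norm_eq_abs]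
          exact mul_le_mul_of_nonneg_left h4 (abs_nonneg _)
        have h7 : G * |b - a| ≤ ε / 2 := by
          calc G * |b - a| ≤ (G + 1) * (ε / (2 * (G + 1))) :=
                mul_le_mul (by linarith) (hab.trans (min_le_right _ _)) (abs_nonneg _)
                  (by linarith)
            _ = ε / 2 := by field_simp
        calc _ ≤ ‖-(nlB (Bx n) (Wn n b) (Wn n b) k - nlB (Bx n) (Wn n a) (Wn n a) k)
              - ((ν * n2 k : ℝ) : ℂ) * (Wn n b k - Wn n a k)‖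
              + ‖Complex.I * ((g * k.1 : ℝ) : ℂ) * (Θn n b k - Θn n a k)‖ := norm_add_le _ _
          _ ≤ (‖-(nlB (Bx n) (Wn n b) (Wn n b) k - nlB (Bx n) (Wn n a) (Wn n a) k)‖
              + ‖((ν * n2 k : ℝ) : ℂ) * (Wn n b k - Wn n a k)‖)
              + ‖Complex.I * ((g * k.1 : ℝ) : ℂ) * (Θn n b k - Θn n a k)‖ := by
              gcongr
              exact norm_sub_le _ _
          _ ≤ ε / 2 + |ν * n2 k| * (cW ν g C D k * |b - a|)
              + |g * k.1| * (ln k * (Real.sqrt C * Real.sqrt D) * |b - a|) := by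
              rw [norm_neg]
              linarith
          _ = ε / 2 + G * |b - a| := by rw [hG]; ring
          _ ≤ ε := by linarith
      have e2 : (t + n) - (s + n) = t - s := by ring
      have h8 := expand hder hmod hn2 hn1 (by rw [e2]; exact ht)
      rw [e2] at h8
      exact h8
  · by_cases hk : k = 0
    · subst hk
      rw [nlI_zero, neg_zero]
      have : (fun s => Θ s 0) = fun _ => 0 := funext hzΘ
      rw [this]
      exact hasDerivAt_const _ _
    · refine hasDerivAt_of_quad fun ε hε => ?_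
      obtain ⟨δ, hδ, he⟩ := equi_nlB C D (cW ν g C D)
        (fun l => ln l * (Real.sqrt C * Real.sqrt D)) k (ε := ε) hε
      refine ⟨δ, hδ, fun t ht => ?_⟩
      have h1 : Tendsto (fun n : ℕ => ‖Θn n (t + n) k - Θn n (s + n) k
          - ((t - s : ℝ) : ℂ) * (-(nlB (Bx n) (Wn n (s + n)) (Θn n (s + n)) k))‖) (U : Filter ℕ)
          (𝓝 ‖Θ t k - Θ s k - ((t - s : ℝ) : ℂ) * (-(nlI (W s) (Θ s) k))‖) :=
        (((hΘ t k).sub (hΘ s k)).sub (((hnWΘ s k).neg).const_mul _)).norm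
      refine le_of_tendsto h1 ?_
      filter_upwards [hev t, hev s, hevk k hk] with n hn1 hn2 hn3
      have hder : ∀ r ∈ Icc (0 : ℝ) (2 * n), HasDerivWithinAt (fun x => Θn n x k)
          (-(nlB (Bx n) (Wn n r) (Θn n r) k)) (Icc 0 (2 * n)) r := fun r hr =>
        (hGB n).derΘ r hr k hn3
      have hmod : ∀ a ∈ Icc (0 : ℝ) (2 * n), ∀ b ∈ Icc (0 : ℝ) (2 * n), |b - a| ≤ δ →
          ‖-(nlB (Bx n) (Wn n b) (Θn n b) k) - -(nlB (Bx n) (Wn n a) (Θn n a) k)‖ ≤ ε := by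
        intro a ha b hb hab
        have h2 := he (Bx n) (Icc 0 (2 * n)) (Wn n) (Θn n) (hGB n).bW (hGB n).bΘ
          (hGB n).spΘ (fun l s hs t ht => (hGB n).lipW l hs ht)
          (fun l s hs t ht => (hGB n).lipΘ l hs ht) a ha b hb hab
        rw [neg_sub_neg, norm_sub_rev]
        exact h2
      have e2 : (t + n) - (s + n) = t - s := by ring
      have h8 := expand hder hmod hn2 hn1 (by rw [e2]; exact ht)
      rw [e2] at h8
      exact h8
  · funext k
    by_cases hk : k = 0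
    · rw [hk, hzΘ, hy0]
    · refine tendsto_nhds_unique (hΘ 0 k) ?_
      refine tendsto_const_nhds.congr' ?_
      filter_upwards [hevk k hk] with n hn
      rw [zero_add]
      exact (hfin n k hn).symm

end Pool.Agent.R211.BQ
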