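import Mathlib

/-!
Galerkin systems for the two-dimensional Boussinesq equations with viscosity and without thermal
diffusion, in terms of the Fourier coefficients of the vorticity and of the temperature.
-/

set_option autoImplicit false

open Set Filter Topology MeasureTheory
open scoped ComplexConjugate ENNReal NNReal ContDiff

namespace Pool.Agent.R211.BQ

/-- Frequencies. -/
abbrev K2 := ℤ × ℤ

/-- The cross product of two frequencies. -/
def cr (k l : K2) : ℤ := k.1 * l.2 - k.2 * l.1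

/-- The squared length of a frequency. -/
def n2 (k : K2) : ℤ := k.1 ^ 2 + k.2 ^ 2

/-- The coefficients of the transport term. -/
noncomputable def cf (k l : K2) : ℝ := (cr k l : ℝ) / (n2 (k - l) : ℝ)

lemma cr_swap (k l : K2) : cr l k = -cr k l := by unfold cr; ring

lemma n2_neg (k : K2) : n2 (-k) = n2 k := by unfold n2; simp

lemma cf_swap (k l : K2) : cf l k = -cf k l := by
  unfold cf
  have h : l - k = -(k - l) := by abel
  rw [cr_swap, h, n2_neg]
  push_cast
  ring

lemma cf_neg (k l : K2) : cf (-k) (-l) = cf k l := by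
  unfold cf
  have h : -k - -l = -(k - l) := by abel
  rw [h, n2_neg]
  congr 2
  unfold cr
  simp

/-- Coefficients at the frequencies in a finite set. -/
abbrev XB (B : Finset K2) := ↥B → ℂ

/-- The extension by zero. -/
noncomputable def ext (B : Finset K2) (x : XB B) : K2 → ℂ :=
  fun k => if h : k ∈ B then x ⟨k, h⟩ else 0

/-- The transport term, on a finite set of frequencies. -/
noncomputable def nlB (B : Finset K2) (w f : K2 → ℂ) (k : K2) : ℂ :=
  ∑ l ∈ B, (cf k l : ℂ) * w (k - l) * f l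

/-- The squared norm. -/
noncomputable def en (B : Finset K2) (x : XB B) : ℝ := ∑ k, ((x k).re ^ 2 + (x k).im ^ 2)

/-- The cut-off. -/
noncomputable def chi (B : Finset K2) (R : ℝ) (x : XB B × XB B) : ℝ :=
  Real.smoothTransition (2 - (en B x.1 + en B x.2) / R)

/-- The vector field with a cut-off. -/
noncomputable def FF (B : Finset K2) (ν g R : ℝ) (x : XB B × XB B) : XB B × XB B :=
  (fun k => (chi B R x : ℂ) * (-(nlB B (ext B x.1) (ext B x.1) k)
      - ((ν * n2 k : ℝ) : ℂ) * x.1 k + Complex.I * ((g * (k : K2).1 : ℝ) : ℂ) * x.2 k),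
    fun k => (chi B R x : ℂ) * (-(nlB B (ext B x.1) (ext B x.2) k)))

section smooth

variable {B : Finset K2}

lemma ext_contDiff (l : K2) : ContDiff ℝ ∞ (fun x : XB B => ext B x l) := by
  unfold ext
  by_cases h : l ∈ B
  · simp only [dif_pos h]
    fun_prop
  · simp only [dif_neg h]
    exact contDiff_const

lemma en_contDiff : ContDiff ℝ ∞ (en B) := by
  unfold en
  refine ContDiff.sum fun k _ => ?_
  have h : ContDiff ℝ ∞ (fun x : XB B => x k) := by fun_prop
  exact ((Complex.reCLM.contDiff.comp h).pow 2).add ((Complex.imCLM.contDiff.comp h).pow 2)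

lemma chi_contDiff (R : ℝ) : ContDiff ℝ ∞ (chi B R) := by
  unfold chi
  refine Real.smoothTransition.contDiff.comp ?_
  exact contDiff_const.sub (((en_contDiff.comp contDiff_fst).add
    (en_contDiff.comp contDiff_snd)).div_const R)

lemma nlB_contDiff {F G : XB B × XB B → K2 → ℂ} (hF : ∀ l, ContDiff ℝ ∞ fun x => F x l)
    (hG : ∀ l, ContDiff ℝ ∞ fun x => G x l) (k : K2) :
    ContDiff ℝ ∞ (fun x => nlB B (F x) (G x) k) := by
  unfold nlB
  exact ContDiff.sum fun l _ => (contDiff_const.mul (hF (k - l))).mul (hG l)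

lemma FF_contDiff (ν g R : ℝ) : ContDiff ℝ ∞ (FF B ν g R) := by
  have e1 : ∀ l, ContDiff ℝ ∞ fun x : XB B × XB B => ext B x.1 l := fun l =>
    (ext_contDiff l).comp contDiff_fst
  have e2 : ∀ l, ContDiff ℝ ∞ fun x : XB B × XB B => ext B x.2 l := fun l =>
    (ext_contDiff l).comp contDiff_snd
  have hc : ContDiff ℝ ∞ fun x : XB B × XB B => (chi B R x : ℂ) :=
    Complex.ofRealCLM.contDiff.comp (chi_contDiff R)
  refine ContDiff.prodMk ?_ ?_
  · refine contDiff_pi.2 fun k => hc.mul ?_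
    have h1 : ContDiff ℝ ∞ (fun x : XB B × XB B => x.1 k) := by fun_prop
    have h2 : ContDiff ℝ ∞ (fun x : XB B × XB B => x.2 k) := by fun_prop
    exact (((nlB_contDiff e1 e1 k).neg).sub (contDiff_const.mul h1)).add (contDiff_const.mul h2)
  · exact contDiff_pi.2 fun k => hc.mul (nlB_contDiff e1 e2 k).neg

lemma en_nonneg (x : XB B) : 0 ≤ en B x := Finset.sum_nonneg fun k _ => by positivity

lemma norm_sq_le_en (x : XB B) : ‖x‖ ^ 2 ≤ en B x := by
  have h0 := en_nonneg x
  have h1 : ‖x‖ ≤ Real.sqrt (en B x) := by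
    rw [pi_norm_le_iff_of_nonneg (Real.sqrt_nonneg _)]
    intro k
    refine Real.le_sqrt_of_sq_le ?_
    have h2 : ‖x k‖ ^ 2 = (x k).re ^ 2 + (x k).im ^ 2 := by
      rw [Complex.sq_norm, Complex.normSq_apply]
      ring
    rw [h2]
    exact Finset.single_le_sum (f := fun k => (x k).re ^ 2 + (x k).im ^ 2)
      (fun k _ => by positivity) (Finset.mem_univ k)
  calc ‖x‖ ^ 2 ≤ Real.sqrt (en B x) ^ 2 := by gcongr
    _ = en B x := Real.sq_sqrt h0

lemma FF_support (ν g : ℝ) {R : ℝ} (hR : 0 < R) : HasCompactSupport (FF B ν g R) := by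
  refine HasCompactSupport.intro (isCompact_closedBall 0 (Real.sqrt (2 * R))) fun x hx => ?_
  rw [mem_closedBall_zero_iff, not_le] at hx
  have h1 : 2 * R < en B x.1 + en B x.2 := by
    have h2 : Real.sqrt (2 * R) ^ 2 = 2 * R := Real.sq_sqrt (by positivity)
    have h3 : ‖x‖ ^ 2 ≤ en B x.1 + en B x.2 := by
      rw [Prod.norm_def]
      rcases max_cases ‖x.1‖ ‖x.2‖ with h | h
      · rw [h.1]
        linarith [norm_sq_le_en x.1, en_nonneg x.2]
      · rw [h.1]
        linarith [norm_sq_le_en x.2, en_nonneg x.1]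
    refine lt_of_lt_of_le ?_ h3
    rw [← h2]
    gcongr
  have h3 : chi B R x = 0 := by
    unfold chi
    refine Real.smoothTransition.zero_of_nonpos ?_
    have : 2 ≤ (en B x.1 + en B x.2) / R := by
      rw [le_div_iff₀ hR]
      exact h1.le
    linarith
  unfold FF
  rw [h3]
  simp only [Complex.ofReal_zero, zero_mul]
  rfl

lemma FF_lipschitz (ν g : ℝ) {R : ℝ} (hR : 0 < R) :
    ∃ K : ℝ≥0, LipschitzWith K (FF B ν g R) :=
  ContDiff.lipschitzWith_of_hasCompactSupport (FF_support ν g hR) (FF_contDiff ν g R) (by simp)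

/-- Solutions of the truncated equation. -/
lemma exists_sol (ν g : ℝ) {R : ℝ} (hR : 0 < R) {T : ℝ} (hT : 0 ≤ T) (x0 : XB B × XB B) :
    ∃ α : ℝ → XB B × XB B, α 0 = x0 ∧
      ∀ t ∈ Icc 0 T, HasDerivWithinAt α (FF B ν g R (α t)) (Icc 0 T) t := by
  obtain ⟨K, hK⟩ := FF_lipschitz (B := B) ν g hR
  obtain ⟨C, hC⟩ := (FF_support (B := B) ν g hR).exists_bound_of_continuous
    (FF_contDiff ν g R).continuous
  have hC0 : 0 ≤ C := (norm_nonneg _).trans (hC 0)
  have hp : IsPicardLindelof (fun _ : ℝ => FF B ν g R) (tmin := 0) (tmax := T)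
      ⟨0, le_rfl, hT⟩ x0 (⟨C, hC0⟩ * ⟨T, hT⟩) 0 ⟨C, hC0⟩ K := by
    refine IsPicardLindelof.of_time_independent (fun x _ => hC x) (hK.lipschitzOnWith) ?_
    simp only [sub_zero, sub_self, NNReal.coe_zero]
    rw [max_eq_left hT]
    exact (NNReal.coe_mul ⟨C, hC0⟩ ⟨T, hT⟩).ge
  exact hp.exists_eq_forall_mem_Icc_hasDerivWithinAt₀

lemma right_deriv {E : Type*} [NormedAddCommGroup E] [NormedSpace ℝ E] {f : ℝ → E} {f' : E}
    {T t : ℝ} (h : HasDerivWithinAt f f' (Icc 0 T) t) (ht : t ∈ Ico 0 T) :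
    HasDerivWithinAt f f' (Ici t) t :=
  h.mono_of_mem_nhdsWithin (Icc_mem_nhdsGE_of_mem ht)

/-- Dependence on the initial value. -/
lemma sol_dist {ν g R T : ℝ} {K : ℝ≥0} (hK : LipschitzWith K (FF B ν g R))
    {α β : ℝ → XB B × XB B}
    (hα : ∀ t ∈ Icc 0 T, HasDerivWithinAt α (FF B ν g R (α t)) (Icc 0 T) t)
    (hβ : ∀ t ∈ Icc 0 T, HasDerivWithinAt β (FF B ν g R (β t)) (Icc 0 T) t) {t : ℝ}
    (ht : t ∈ Icc 0 T) : dist (α t) (β t) ≤ dist (α 0) (β 0) * Real.exp (K * T) := by
  have h1 := dist_le_of_trajectories_ODE (v := fun _ => FF B ν g R) (fun _ => hK)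
    (fun t ht => (hα t ht).continuousWithinAt)
    (fun t ht => right_deriv (hα t (Ico_subset_Icc_self ht)) ht)
    (fun t ht => (hβ t ht).continuousWithinAt)
    (fun t ht => right_deriv (hβ t (Ico_subset_Icc_self ht)) ht) le_rfl t ht
  refine h1.trans (mul_le_mul_of_nonneg_left (Real.exp_le_exp.2 ?_) dist_nonneg)
  exact mul_le_mul_of_nonneg_left (by linarith [ht.2]) K.2

end smooth

section flip

variable {B : Finset K2} (hB : ∀ k ∈ B, -k ∈ B)

/-- The symmetry of real functions. -/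
noncomputable def fl (x : XB B) : XB B := fun k => conj (x ⟨-k.1, hB k.1 k.2⟩)

lemma ext_fl (x : XB B) (l : K2) : ext B (fl hB x) l = conj (ext B x (-l)) := by
  unfold ext fl
  by_cases h : l ∈ B
  · rw [dif_pos h, dif_pos (hB l h)]
  · rw [dif_neg h, dif_neg, map_zero]
    intro h1
    exact h (by simpa using hB _ h1)

lemma en_fl (x : XB B) : en B (fl hB x) = en B x := by
  unfold en fl
  have hinv : Function.Involutive (fun k : ↥B => (⟨-k.1, hB k.1 k.2⟩ : ↥B)) := fun k => by simp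
  rw [← Equiv.sum_comp (Function.Involutive.toPerm _ hinv) fun k => ((x k).re ^ 2 + (x k).im ^ 2)]
  refine Finset.sum_congr rfl fun k _ => ?_
  simp only [Complex.conj_re, Complex.conj_im, neg_sq, Function.Involutive.coe_toPerm]

include hB in
lemma sum_neg (f : K2 → ℂ) : ∑ l ∈ B, f (-l) = ∑ l ∈ B, f l :=
  Finset.sum_nbij' (fun l => -l) (fun l => -l) hB hB (fun l _ => neg_neg l) (fun l _ => neg_neg l)
    fun _ _ => rfl

include hB in
lemma nlB_conj (w f : K2 → ℂ) (k : K2) :
    nlB B (fun l => conj (w (-l))) (fun l => conj (f (-l))) k = conj (nlB B w f (-k)) := by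
  unfold nlB
  simp only [map_sum, map_mul, Complex.conj_ofReal]
  rw [← sum_neg hB fun l => (cf (-k) l : ℂ) * conj (w (-k - l)) * conj (f l)]
  refine Finset.sum_congr rfl fun l _ => ?_
  rw [cf_neg]
  have h : -k - -l = -(k - l) := by abel
  rw [h]

lemma FF_fl (ν g R : ℝ) (x : XB B × XB B) :
    FF B ν g R (fl hB x.1, fl hB x.2) = (fl hB (FF B ν g R x).1, fl hB (FF B ν g R x).2) := by
  have h1 : chi B R (fl hB x.1, fl hB x.2) = chi B R x := by
    unfold chi
    simp only [en_fl]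
  have h2 : ∀ (y : XB B) (k : K2), nlB B (ext B (fl hB x.1)) (ext B (fl hB y)) k
      = conj (nlB B (ext B x.1) (ext B y) (-k)) := by
    intro y k
    rw [← nlB_conj hB]
    congr 1
    · funext j
      exact ext_fl hB x.1 j
    · funext j
      exact ext_fl hB y j
  unfold FF
  rw [h1]
  refine Prod.ext ?_ ?_
  · funext k
    show (chi B R x : ℂ) * (-(nlB B (ext B (fl hB x.1)) (ext B (fl hB x.1)) k)
      - ((ν * n2 k : ℝ) : ℂ) * fl hB x.1 k + Complex.I * ((g * (k : K2).1 : ℝ) : ℂ) * fl hB x.2 k)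
      = _
    rw [h2]
    simp only [fl, map_mul, map_add, map_sub, map_neg, Complex.conj_ofReal, n2_neg, Complex.conj_I]
    congr 1
    congr 1
    simp only [Prod.fst_neg, Int.cast_neg, mul_neg, Complex.ofReal_neg]
    ring
  · funext k
    show (chi B R x : ℂ) * (-(nlB B (ext B (fl hB x.1)) (ext B (fl hB x.2)) k)) = _
    rw [h2]
    simp only [fl, map_mul, map_neg, Complex.conj_ofReal]

/-- The solutions are real. -/
lemma sol_real {ν g R : ℝ} (hR : 0 < R) {T : ℝ}
    {α : ℝ → XB B × XB B} (h0 : (fl hB (α 0).1, fl hB (α 0).2) = α 0)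
    (hα : ∀ t ∈ Icc 0 T, HasDerivWithinAt α (FF B ν g R (α t)) (Icc 0 T) t) :
    ∀ t ∈ Icc 0 T, (fl hB (α t).1, fl hB (α t).2) = α t := by
  obtain ⟨K, hK⟩ := FF_lipschitz (B := B) ν g hR
  have key : ∀ (β : ℝ → XB B) (b : XB B) (t : ℝ), HasDerivWithinAt β b (Icc 0 T) t →
      HasDerivWithinAt (fun s => fl hB (β s)) (fl hB b) (Icc 0 T) t := by
    intro β b t h1
    rw [hasDerivWithinAt_pi] at h1 ⊢
    intro k
    have h2 := h1 ⟨-k.1, hB k.1 k.2⟩
    exact Complex.conjCLE.toContinuousLinearMap.hasFDerivAt.comp_hasDerivWithinAt t h2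
  have hfl : ∀ t ∈ Icc 0 T, HasDerivWithinAt (fun s => (fl hB (α s).1, fl hB (α s).2))
      (FF B ν g R (fl hB (α t).1, fl hB (α t).2)) (Icc 0 T) t := by
    intro t ht
    rw [FF_fl hB]
    have h1 := hα t ht
    exact (key _ _ t h1.fst).prodMk (key _ _ t h1.snd)
  have hu := ODE_solution_unique (v := fun _ => FF B ν g R) (fun _ => hK) (a := 0) (b := T)
    (f := fun s => (fl hB (α s).1, fl hB (α s).2)) (g := α)
    (fun t ht => (hfl t ht).continuousWithinAt)
    (fun t ht => right_deriv (hfl t (Ico_subset_Icc_self ht)) ht)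
    (fun t ht => (hα t ht).continuousWithinAt)
    (fun t ht => right_deriv (hα t (Ico_subset_Icc_self ht)) ht) h0
  exact fun t ht => hu ht

end flip

lemma chi_nonneg {B : Finset K2} (R : ℝ) (x : XB B × XB B) : 0 ≤ chi B R x :=
  Real.smoothTransition.nonneg _

lemma chi_le_one {B : Finset K2} (R : ℝ) (x : XB B × XB B) : chi B R x ≤ 1 :=
  Real.smoothTransition.le_one _

end Pool.Agent.R211.BQ
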