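import Pool.Agent.R211.BQ.Main
import Pool.Agent.R211.BQ.Fou

/-!
From the coefficients of the vorticity and the temperature to solutions of the Boussinesq system.
-/

set_option autoImplicit false

open Set Filter Topology MeasureTheory
open scoped ComplexConjugate ENNReal

namespace Pool.Agent.R211.BQ

/-- The coefficients of the velocity of a vorticity. -/
noncomputable def uc (κ : ℝ) (w : K2 → ℂ) (i : Fin 2) (k : K2) : ℂ :=
  Complex.I * (((if i = 0 then (k.2 : ℝ) else -(k.1 : ℝ)) / (κ * n2 k) : ℝ) : ℂ) * w k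

lemma sq_eq (k : K2) : sq k = n2 k := by
  unfold sq n2
  push_cast
  ring

lemma uc_conj {κ : ℝ} {w : K2 → ℂ} (hw : ∀ k, conj (w k) = w (-k)) (i : Fin 2) (k : K2) :
    conj (uc κ w i k) = uc κ w i (-k) := by
  unfold uc
  rw [map_mul, map_mul, Complex.conj_I, Complex.conj_ofReal, hw, n2_neg]
  have : (((if i = 0 then ((-k).2 : ℝ) else -((-k).1 : ℝ)) / (κ * n2 k) : ℝ) : ℂ)
      = -(((if i = 0 then (k.2 : ℝ) else -(k.1 : ℝ)) / (κ * n2 k) : ℝ) : ℂ) := by
    split_ifs
    · simp only [Prod.snd_neg]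
      push_cast
      ring
    · simp only [Prod.fst_neg]
      push_cast
      ring
  rw [this]
  ring

lemma uc_sq {κ : ℝ} (hκ : 0 < κ) {w : K2 → ℂ} (h0 : w 0 = 0) (k : K2) :
    κ ^ 2 * n2 k * ∑ i, ‖uc κ w i k‖ ^ 2 = ‖w k‖ ^ 2 := by
  by_cases hk : k = 0
  · subst hk
    have : n2 0 = 0 := by unfold n2; simp
    rw [this, h0]
    simp
  · have h1 : (1 : ℝ) ≤ n2 k := by exact_mod_cast one_le_n2 hk
    have h2 : (n2 k : ℝ) ≠ 0 := by linarith
    rw [Fin.sum_univ_two]
    unfold uc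
    rw [norm_mul, norm_mul, norm_mul, norm_mul, Complex.norm_I, Complex.norm_real,
      Complex.norm_real, one_mul, one_mul, mul_pow, mul_pow, Real.norm_eq_abs, Real.norm_eq_abs,
      sq_abs, sq_abs]
    simp only [if_true, Fin.one_eq_zero_iff, OfNat.ofNat_ne_one, if_false]
    have h3 : (n2 k : ℝ) = (k.1 : ℝ) ^ 2 + (k.2 : ℝ) ^ 2 := by
      unfold n2
      push_cast
      ring
    have h4 : ((k.2 : ℝ) / (κ * n2 k)) ^ 2 * ‖w k‖ ^ 2 + (-(k.1 : ℝ) / (κ * n2 k)) ^ 2 * ‖w k‖ ^ 2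
        = ((k.1 : ℝ) ^ 2 + (k.2 : ℝ) ^ 2) * ‖w k‖ ^ 2 / (κ ^ 2 * (n2 k : ℝ) ^ 2) := by
      field_simp
      ring
    rw [h4, ← h3]
    field_simp

lemma uc_LB {κ C : ℝ} (hκ : 0 < κ) {w : K2 → ℂ} (h0 : w 0 = 0) (hw : LB C w) (i : Fin 2) :
    LB (C / κ ^ 2) (uc κ w i) := by
  intro S
  rw [le_div_iff₀ (by positivity), Finset.sum_mul]
  refine le_trans (Finset.sum_le_sum fun k _ => ?_) (hw S)
  rw [← uc_sq hκ h0 k]
  have h1 : ‖uc κ w i k‖ ^ 2 ≤ ∑ i, ‖uc κ w i k‖ ^ 2 :=
    Finset.single_le_sum (f := fun i => ‖uc κ w i k‖ ^ 2) (fun _ _ => sq_nonneg _)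
      (Finset.mem_univ i)
  have h2 : 0 ≤ ∑ i, ‖uc κ w i k‖ ^ 2 := (sq_nonneg _).trans h1
  by_cases hk : k = 0
  · subst hk
    unfold uc
    rw [h0, mul_zero, norm_zero]
    have : n2 0 = 0 := by unfold n2; simp
    rw [this]
    simp
  · have h3 : (1 : ℝ) ≤ n2 k := by exact_mod_cast one_le_n2 hk
    calc ‖uc κ w i k‖ ^ 2 * κ ^ 2 ≤ (∑ i, ‖uc κ w i k‖ ^ 2) * κ ^ 2 := by gcongr
      _ = κ ^ 2 * 1 * ∑ i, ‖uc κ w i k‖ ^ 2 := by ring
      _ ≤ κ ^ 2 * n2 k * ∑ i, ‖uc κ w i k‖ ^ 2 := by gcongr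

lemma uc_div (κ : ℝ) (w : K2 → ℂ) (k : K2) : ∑ i, (cm k i : ℂ) * uc κ w i k = 0 := by
  rw [Fin.sum_univ_two]
  unfold uc cm
  simp only [if_true, Fin.one_eq_zero_iff, OfNat.ofNat_ne_one, if_false]
  push_cast
  ring

/-- The transport by the velocity. -/
lemma sum_cm_uc (κ : ℝ) (w : K2 → ℂ) (k l : K2) :
    ∑ j, (cm k j : ℂ) * uc κ w j l = Complex.I * ((cr k l / (κ * n2 l) : ℝ) : ℂ) * w l := by
  rw [Fin.sum_univ_two]
  unfold uc cm cr
  simp only [if_true, Fin.one_eq_zero_iff, OfNat.ofNat_ne_one, if_false]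
  push_cast
  ring

lemma cr_sub (k l : K2) : cr k (k - l) = -cr k l := by
  unfold cr
  simp only [Prod.fst_sub, Prod.snd_sub]
  ring

lemma sum_c_uc (κ : ℝ) (w : K2 → ℂ) (c : Fin 2 → ℂ) (k : K2) :
    ∑ i, c i * uc κ w i k
      = Complex.I * ((c 0 * k.2 - c 1 * k.1) / ((κ * n2 k : ℝ) : ℂ)) * w k := by
  rw [Fin.sum_univ_two]
  unfold uc
  simp only [if_true, Fin.one_eq_zero_iff, OfNat.ofNat_ne_one, if_false]
  push_cast
  ring

/-- The transport equation for the coefficients. -/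
lemma tra_eq {L : ℝ} (hL : 0 < L) {C D : ℝ} {w f : K2 → ℂ} (hw : LB C w) (hf : LB D f)
    {u : Fin 2 → T2 → ℝ} {θ : T2 → ℝ} (hum : ∀ i, MemLp (u i) 2 mu) (hθm : MemLp θ 2 mu) (hu : ∀ i k, fc (u i) k = uc (2 * Real.pi / L) w i k)
    (hθ : ∀ k, fc θ k = f k) (k : K2) : tra L u θ k = -(nlI w f k) := by
  unfold tra dj kap
  set κ : ℝ := 2 * Real.pi / L with hκd
  have hκ : 0 < κ := by positivity
  have h1 : HasSum (fun l : K2 => ∑ j, (-(Complex.I * ((κ * cm k j : ℝ) : ℂ)))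
      * (fc (u j) (k - l) * fc θ l))
      (∑ j, (-(Complex.I * ((κ * cm k j : ℝ) : ℂ))) * pr (u j) θ k) :=
    hasSum_sum fun j _ => (pr_hasSum (hum j) hθm k).mul_left _
  have h2 : HasSum (fun l : K2 => -((cf k l : ℂ) * w (k - l) * f l)) (-(nlI w f k)) :=
    ((summable_nlI hw hf k).hasSum).neg
  refine (h1.unique (h2.congr_fun fun l => ?_))
  have h3 : ∑ j, (-(Complex.I * ((κ * cm k j : ℝ) : ℂ))) * (fc (u j) (k - l) * fc θ l)
      = -(Complex.I * (κ : ℂ)) * (∑ j, (cm k j : ℂ) * uc κ w j (k - l)) * f l := by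
    rw [Finset.mul_sum, Finset.sum_mul]
    refine Finset.sum_congr rfl fun j _ => ?_
    rw [hu, hθ]
    push_cast
    ring
  rw [h3, sum_cm_uc, cr_sub]
  unfold cf
  push_cast
  have hκ' : (κ : ℂ) ≠ 0 := by exact_mod_cast hκ.ne'
  by_cases hz : ((n2 (k - l) : ℤ) : ℂ) = 0
  · rw [hz]
    simp
  · field_simp
    rw [Complex.I_sq]
    ring

lemma n2_eq (k : K2) : (n2 k : ℂ) = (k.1 : ℂ) ^ 2 + (k.2 : ℂ) ^ 2 := by
  unfold n2
  push_cast
  ring

/-- The momentum equation for the coefficients. -/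
lemma mom_eq {L ν g : ℝ} (hL : 0 < L) {C D : ℝ} {w f : K2 → ℂ} (hw : LB C w) (hf : LB D f)
    (hw0 : w 0 = 0) (hf0 : f 0 = 0)
    {u : Fin 2 → T2 → ℝ} {θ : T2 → ℝ} (hum : ∀ i, MemLp (u i) 2 mu)
    (hu : ∀ i k, fc (u i) k = uc (2 * Real.pi / L) w i k)
    (hθ : ∀ k, fc θ k = f k) (k : K2) {c : Fin 2 → ℂ} (hc : ∑ i, (cm k i : ℂ) * c i = 0) :
    mom L ν g u θ k c = Complex.I * ((c 0 * k.2 - c 1 * k.1) /
      (((2 * Real.pi / L) * n2 k : ℝ) : ℂ))
      * rI (ν * (2 * Real.pi / L) ^ 2) (g * (2 * Real.pi / L)) w f k := by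
  unfold mom conv pa dj kap
  set κ : ℝ := 2 * Real.pi / L with hκd
  have hκ : 0 < κ := by positivity
  have hκ' : (κ : ℂ) ≠ 0 := by exact_mod_cast hκ.ne'
  by_cases hk : k = 0
  · subst hk
    have hcm : ∀ j, cm 0 j = 0 := by
      intro j
      unfold cm
      simp
    have : n2 0 = 0 := by unfold n2; simp
    rw [sq_eq, this, hθ, hf0, rI_zero]
    simp [hcm]
  · have hnk : (n2 k : ℂ) ≠ 0 := by
      have := one_le_n2 hk
      exact_mod_cast (by omega : n2 k ≠ 0)
    set lam : ℂ := (c 1 * k.1 - c 0 * k.2) / (n2 k : ℂ) with hlam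
    have hc' : (k.1 : ℂ) * c 0 + (k.2 : ℂ) * c 1 = 0 := by
      rw [Fin.sum_univ_two] at hc
      unfold cm at hc
      simpa using hc
    have hc0 : c 0 = -lam * k.2 := by
      rw [hlam]
      field_simp
      rw [n2_eq]
      linear_combination (k.1 : ℂ) * hc'
    have hc1 : c 1 = lam * k.1 := by
      rw [hlam]
      field_simp
      rw [n2_eq]
      linear_combination (k.2 : ℂ) * hc'
    have hfac : Complex.I * ((c 0 * k.2 - c 1 * k.1) / ((κ * n2 k : ℝ) : ℂ))
        = -(Complex.I * lam / κ) := by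
      rw [hlam]
      push_cast
      field_simp
      ring
    -- the nonlinear term
    set t : K2 → ℂ := fun l => ((k.1 : ℂ) * ((k - l).1 : ℂ) + (k.2 : ℂ) * ((k - l).2 : ℂ))
      * (cr k l : ℂ) / ((n2 l : ℂ) * (n2 (k - l) : ℂ)) * (w l * w (k - l)) with ht
    have h1 : HasSum (fun l : K2 => ∑ i, ∑ j, c i * (-(Complex.I * ((κ * cm k j : ℝ) : ℂ)))
        * (fc (u i) (k - l) * fc (u j) l))
        (∑ i, ∑ j, c i * (-(Complex.I * ((κ * cm k j : ℝ) : ℂ)))
          * pr (u i) (u j) k) :=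
      hasSum_sum fun i _ => hasSum_sum fun j _ => (pr_hasSum (hum i) (hum j) k).mul_left _
    have h2 : ∀ l, ∑ i, ∑ j, c i * (-(Complex.I * ((κ * cm k j : ℝ) : ℂ)))
        * (fc (u i) (k - l) * fc (u j) l) = -(Complex.I * lam / κ) * t l := by
      intro l
      have h3 : ∑ i, ∑ j, c i * (-(Complex.I * ((κ * cm k j : ℝ) : ℂ)))
          * (fc (u i) (k - l) * fc (u j) l)
          = -(Complex.I * (κ : ℂ)) * (∑ i, c i * uc κ w i (k - l))
            * (∑ j, (cm k j : ℂ) * uc κ w j l) := by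
        rw [mul_assoc, Finset.sum_mul_sum, Finset.mul_sum]
        refine Finset.sum_congr rfl fun i _ => ?_
        rw [Finset.mul_sum]
        refine Finset.sum_congr rfl fun j _ => ?_
        rw [hu, hu]
        push_cast
        ring
      rw [h3, sum_cm_uc, sum_c_uc, hc0, hc1]
      simp only [ht]
      push_cast
      by_cases hl : l = 0
      · subst hl
        rw [hw0]
        simp
      by_cases hkl : k - l = 0
      · rw [hkl, hw0]
        simp
      have hnl : (n2 l : ℂ) ≠ 0 := by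
        have := one_le_n2 hl
        exact_mod_cast (by omega : n2 l ≠ 0)
      have hnkl : (n2 (k - l) : ℂ) ≠ 0 := by
        have := one_le_n2 hkl
        exact_mod_cast (by omega : n2 (k - l) ≠ 0)
      field_simp
      have hI : Complex.I ^ 3 = -Complex.I := by
        rw [pow_succ, Complex.I_sq]
        ring
      rw [show Complex.I ^ 2 = -1 from Complex.I_sq]
      ring
    have hts : Summable t := by
      have hlam0 : lam ≠ 0 ∨ lam = 0 := ne_or_eq _ _
      have h4 : ∀ l, ‖t l‖ ≤ ln k ^ 2 * (‖w (k - l)‖ * ‖w l‖) := by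
        intro l
        simp only [ht]
        by_cases hl : l = 0
        · subst hl
          rw [hw0]
          simp
        by_cases hkl : k - l = 0
        · rw [hkl, hw0]
          simp
        have a1 := one_le_ln hl
        have a2 := one_le_ln hkl
        have b1 : |(cr k l : ℝ)| ≤ ln k * ln (k - l) := abs_cr_le k l
        have b2 : |(k.1 : ℝ) * ((k - l).1 : ℝ) + (k.2 : ℝ) * ((k - l).2 : ℝ)|
            ≤ ln k * ln (k - l) := by
          rw [← Real.sqrt_sq (mul_nonneg (ln_nonneg k) (ln_nonneg (k - l)))]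
          refine Real.abs_le_sqrt ?_
          rw [mul_pow, ln_sq, ln_sq]
          unfold n2
          push_cast
          nlinarith [sq_nonneg ((k.1 : ℝ) * ((k - l).2 : ℝ) - (k.2 : ℝ) * ((k - l).1 : ℝ))]
        have e1 : ((k.1 : ℂ) * ((k - l).1 : ℂ) + (k.2 : ℂ) * ((k - l).2 : ℂ)) * (cr k l : ℂ)
            / ((n2 l : ℂ) * (n2 (k - l) : ℂ))
            = ((((k.1 : ℝ) * ((k - l).1 : ℝ) + (k.2 : ℝ) * ((k - l).2 : ℝ)) * (cr k l : ℝ)
              / ((n2 l : ℝ) * (n2 (k - l) : ℝ)) : ℝ) : ℂ) := by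
          push_cast
          ring
        rw [e1, norm_mul, norm_mul, Complex.norm_real, Real.norm_eq_abs, abs_div, abs_mul,
          ← ln_sq, ← ln_sq, abs_of_nonneg (by positivity : 0 ≤ ln l ^ 2 * ln (k - l) ^ 2)]
        rw [mul_comm ‖w l‖]
        refine mul_le_mul_of_nonneg_right ?_ (by positivity)
        rw [div_le_iff₀ (by positivity)]
        calc _ ≤ (ln k * ln (k - l)) * (ln k * ln (k - l)) :=
              mul_le_mul b2 b1 (abs_nonneg _) (mul_nonneg (ln_nonneg k) (ln_nonneg _))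
          _ = ln k ^ 2 * (1 ^ 2 * ln (k - l) ^ 2) := by ring
          _ ≤ ln k ^ 2 * (ln l ^ 2 * ln (k - l) ^ 2) := by gcongr
      refine Summable.of_norm_bounded (g := fun l => ln k ^ 2 * (‖w (k - l)‖ * ‖w l‖)) ?_ h4
      refine Summable.mul_left _ ?_
      exact summable_of_sum_le (fun _ => mul_nonneg (norm_nonneg _) (norm_nonneg _))
        fun S => sum_mul_le hw hw k S
    have hX : ∑' l, t l = -(nlI w w k) := by
      have h5 := summable_nlI hw hw k
      have h6 : ∑' l, (t l + (cf k l : ℂ) * w (k - l) * w l) = 0 := by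
        set q : K2 → ℂ := fun l => t l + (cf k l : ℂ) * w (k - l) * w l with hq
        have h7 : ∀ l, q (k - l) = -q l := by
          intro l
          simp only [hq, ht]
          have e2 : k - (k - l) = l := by abel
          rw [e2]
          by_cases hl : l = 0
          · subst hl
            rw [sub_zero, hw0]
            simp
          by_cases hkl : k - l = 0
          · rw [hkl, hw0]
            simp
          have hnl : (n2 l : ℂ) ≠ 0 := by
            have := one_le_n2 hl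
            exact_mod_cast (by omega : n2 l ≠ 0)
          have hnkl : (n2 (k - l) : ℂ) ≠ 0 := by
            have := one_le_n2 hkl
            exact_mod_cast (by omega : n2 (k - l) ≠ 0)
          unfold cf
          rw [e2, cr_sub]
          push_cast
          field_simp
          rw [n2_eq, n2_eq]
          simp only [Prod.fst_sub, Prod.snd_sub]
          push_cast
          ring
        have h8 : ∑' l, q l = ∑' l, q (k - l) := ((Equiv.subLeft k).tsum_eq q).symm
        simp only [h7, tsum_neg] at h8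
        have h9 : (2 : ℂ) * ∑' l, q l = 0 := by linear_combination h8
        simpa using h9
      rw [hts.tsum_add h5] at h6
      unfold nlI
      linear_combination h6
    have hN : ∑ i, ∑ j, c i * (-(Complex.I * ((κ * cm k j : ℝ) : ℂ)))
        * pr (u i) (u j) k = -(Complex.I * lam / κ) * -(nlI w w k) := by
      rw [← hX, ← tsum_mul_left]
      simp only [h2] at h1
      exact h1.tsum_eq.symm
    rw [hN, hfac]
    simp only [hu, hθ]
    rw [sum_c_uc, hfac, sq_eq, hc1]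
    unfold rI
    push_cast
    field_simp
    ring_nf
    rw [Complex.I_sq]
    ring

lemma nlI_le {C D : ℝ} {w f : K2 → ℂ} (hw : LB C w) (hf : LB D f) (k : K2) :
    ‖nlI w f k‖ ≤ ln k * (Real.sqrt C * Real.sqrt D) := by
  have h1 : Tendsto (fun S : Finset K2 => ‖nlB S w f k‖) atTop (𝓝 ‖nlI w f k‖) :=
    ((summable_nlI hw hf k).hasSum).norm
  refine le_of_tendsto h1 (Filter.Eventually.of_forall fun S => ?_)
  exact nlB_le hw hf (ln_nonneg k) fun l _ => abs_cf_le k l

lemma rI_le {ν g C D : ℝ} {w f : K2 → ℂ} (hw : LB C w) (hf : LB D f) (k : K2) :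
    ‖rI ν g w f k‖ ≤ cW ν g C D k := by
  unfold rI cW
  have h1 := nlI_le hw hw k
  have h2 : ‖((ν * n2 k : ℝ) : ℂ) * w k‖ ≤ |ν * n2 k| * Real.sqrt C := by
    rw [norm_mul, Complex.norm_real, Real.norm_eq_abs]
    exact mul_le_mul_of_nonneg_left (hw.norm_le k) (abs_nonneg _)
  have h3 : ‖Complex.I * ((g * k.1 : ℝ) : ℂ) * f k‖ ≤ |g * k.1| * Real.sqrt D := by
    rw [norm_mul, norm_mul, Complex.norm_I, one_mul, Complex.norm_real, Real.norm_eq_abs]
    exact mul_le_mul_of_nonneg_left (hf.norm_le k) (abs_nonneg _)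
  calc _ ≤ ‖-(nlI w w k) - ((ν * n2 k : ℝ) : ℂ) * w k‖
        + ‖Complex.I * ((g * k.1 : ℝ) : ℂ) * f k‖ := norm_add_le _ _
    _ ≤ (‖-(nlI w w k)‖ + ‖((ν * n2 k : ℝ) : ℂ) * w k‖)
        + ‖Complex.I * ((g * k.1 : ℝ) : ℂ) * f k‖ := by gcongr; exact norm_sub_le _ _
    _ ≤ _ := by
      rw [norm_neg]
      linarith

lemma ftc {f f' : ℝ → ℂ} {M : ℝ} (h : ∀ t, HasDerivAt f (f' t) t) (hM : ∀ t, ‖f' t‖ ≤ M)
    (a b : ℝ) : IntervalIntegrable f' volume a b ∧ f b - f a = ∫ t in a..b, f' t := by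
  have h1 : f' = deriv f := funext fun t => (h t).deriv.symm
  have h2 : IntervalIntegrable f' volume a b := by
    rw [intervalIntegrable_iff]
    refine Measure.integrableOn_of_bounded (M := M) ?_ ?_ ?_
    · rw [Real.volume_uIoc]
      exact ENNReal.ofReal_ne_top
    · rw [h1]
      exact (measurable_deriv f).aestronglyMeasurable
    · exact Filter.Eventually.of_forall hM
  exact ⟨h2, (intervalIntegral.integral_eq_sub_of_hasDerivAt (fun t _ => h t) h2).symm⟩

end Pool.Agent.R211.BQ
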