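import Pool.Agent.R211.BQ.Att

/-!
Translation in time of solutions.
-/

set_option autoImplicit false

open Set Filter Topology MeasureTheory
open scoped ComplexConjugate ENNReal

namespace Pool.Agent.R211.BQ

lemma IsSol.shift {L ν g : ℝ} {u : ℝ → Fin 2 → T2 → ℝ} {θ : ℝ → T2 → ℝ} (h : IsSol L ν g univ u θ)
    (c : ℝ) (J : Set ℝ) : IsSol L ν g J (fun t => u (t - c)) (fun t => θ (t - c)) where
  memH t _ := h.memH _ (mem_univ _)
  memL t _ := h.memL _ (mem_univ _)
  contU i := by
    intro φ hφ
    have h1 := continuousOn_univ.1 (h.contU i φ hφ)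
    exact (h1.comp (continuous_id.sub continuous_const)).continuousOn
  contΘ := by
    intro φ hφ
    have h1 := continuousOn_univ.1 (h.contΘ φ hφ)
    exact (h1.comp (continuous_id.sub continuous_const)).continuousOn
  memV := by
    intro a _ b _
    have h1 := h.memV (a - c) (mem_univ _) (b - c) (mem_univ _)
    have h2 : ∫⁻ t in Icc a b, grad2 L (u (t - c))
        = ∫⁻ t in Icc (a - c) (b - c), grad2 L (u t) := by
      rw [← lintegral_indicator measurableSet_Icc, ← lintegral_indicator measurableSet_Icc,
        ← lintegral_sub_right_eq_self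
          (fun t => (Icc (a - c) (b - c)).indicator (fun t => grad2 L (u t)) t) c]
      refine lintegral_congr fun t => ?_
      by_cases ht : t ∈ Icc a b
      · have : t - c ∈ Icc (a - c) (b - c) := ⟨by linarith [ht.1], by linarith [ht.2]⟩
        rw [indicator_of_mem ht, indicator_of_mem this]
      · have : t - c ∉ Icc (a - c) (b - c) := fun h =>
          ht ⟨by linarith [h.1], by linarith [h.2]⟩
        rw [indicator_of_notMem ht, indicator_of_notMem this]
    rw [h2]
    exact h1
  momentum := by
    intro k d hd a _ b _ hab
    obtain ⟨h1, h2⟩ := h.momentum k d hd (a - c) (mem_univ _) (b - c) (mem_univ _) (by linarith)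
    refine ⟨?_, ?_⟩
    · have h3 := h1.comp_sub_right c
      simpa using h3
    · simp only at h2 ⊢
      rw [h2]
      exact (intervalIntegral.integral_comp_sub_right
        (fun t => mom L ν g (u t) (θ t) k d) c).symm
  transport := by
    intro k a _ b _ hab
    obtain ⟨h1, h2⟩ := h.transport k (a - c) (mem_univ _) (b - c) (mem_univ _) (by linarith)
    refine ⟨?_, ?_⟩
    · have h3 := h1.comp_sub_right c
      simpa using h3
    · simp only at h2 ⊢
      rw [h2]
      exact (intervalIntegral.integral_comp_sub_right
        (fun t => tra L (u t) (θ t) k) c).symm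

end Pool.Agent.R211.BQ
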